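import Pool.Agent.U853.SR.Exp
import Pool.Agent.U69.FE.VAL

set_option autoImplicit false

namespace Pool.Agent.U853.SR

open Pool.Agent.Y924.EL Function
open Pool.Agent.Results.MP_db9079_lc.UniformFiniteness
open Pool.Agent.Results.MP_db9079_lc.LocallyFiniteValues

variable {p : ℕ} [Fact p.Prime]

/-- the image of a tame predicate under an endomorphism is tame -/
theorem tame_image (σ : LaurentSeries (ZMod p) →+* LaurentSeries (ZMod p))
    (X : Set (LaurentSeries (ZMod p))) (h : Tame p X) : Tame p (σ '' X) := by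
  obtain ⟨e, he, hord⟩ := Pool.Agent.U69.FE.VAL_ok p σ
  have ht0 := tt_ne_zero (p := p)
  have hs0 : σ (tt p) ≠ 0 := (map_ne_zero σ).2 ht0
  have hse : (σ (tt p)).order = e := by
    have h1 := tt_order (p := p) 1
    rw [pow_one] at h1
    rw [hord _ ht0, h1]
    simp
  have hs1 : σ (tt p) ∈ D p 1 := (mem_D_iff hs0).2 (by omega)
  have hO : ∀ x ∈ D p 0, σ x ∈ D p 0 := by
    intro x hx
    rcases eq_or_ne x 0 with rfl | hx0
    · rw [map_zero]
      exact D_zero 0
    · rw [mem_D_iff ((map_ne_zero σ).2 hx0), hord x hx0]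
      have h1 := (mem_D_iff hx0).1 hx
      positivity
  have hX : HahnSeries.ofPowerSeries ℤ (ZMod p) PowerSeries.X = tt p := by
    rw [HahnSeries.ofPowerSeries_X]
    rfl
  have h3 : ∀ (f : ℕ → ZMod p) (N : ℕ),
      σ (HahnSeries.ofPowerSeries ℤ (ZMod p) (PowerSeries.mk f)) -
        ∑ n ∈ Finset.range N, (((f n).val : ℕ) : LaurentSeries (ZMod p)) * σ (tt p) ^ n ∈
          D p N := by
    intro f N
    have h1 : σ (HahnSeries.ofPowerSeries ℤ (ZMod p) (PowerSeries.mk f)) -
        ∑ n ∈ Finset.range N, (((f n).val : ℕ) : LaurentSeries (ZMod p)) * σ (tt p) ^ n =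
        σ (tt p) ^ N * σ (HahnSeries.ofPowerSeries ℤ (ZMod p)
          (PowerSeries.mk fun n => f (n + N))) := by
      conv_lhs => rw [mk_split f N]
      rw [map_add, map_sum, map_mul, map_pow, hX, map_add, map_sum, map_mul, map_pow]
      simp only [map_mul, map_natCast, map_pow, hX]
      ring
    rw [h1]
    have h2 := D_mul (pow_mem_D hs1 N) (hO _ (ofPS_mem (p := p)
      (PowerSeries.mk fun n => f (n + N))))
    rw [add_zero] at h2
    exact h2
  have hd := decomp hs0 hse he σ rfl h3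
  have hu : ∀ a : ℕ → LaurentSeries (ZMod p),
      ∑ i ∈ Finset.range e, σ (a i) * tt p ^ i = 0 → ∀ i < e, a i = 0 := by
    intro a ha i hi
    by_contra hne
    exact (sum_order σ hord (Finset.range e) (fun i hi => Finset.mem_range.1 hi) a
      ⟨i, Finset.mem_range.2 hi, hne⟩).1 ha
  choose c hc using hd
  obtain ⟨g, hg1, _⟩ := exists_g X e he (fun k l => c (tt p ^ k) l) (fun _ => 0)
  refine tame_of_uniform p _ fun φ => ?_
  refine transfer (O := X) (e := e) (τ := σ) (t := tt p) he (fun y => ⟨c y, hc y⟩)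
    hu g (fun k => ?_) (σ '' X) X (fun y => Iff.rfl) (fun i => ⟨.val i, fun _ _ => Iff.rfl⟩)
    (fun ψ => ds_of_tame _ h e ψ) φ
  conv_lhs => rw [hc (tt p ^ k)]
  refine Finset.sum_congr rfl fun l hl => ?_
  rw [hg1 k l (Finset.mem_range.1 hl)]

end Pool.Agent.U853.SR
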