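import Mathlib

set_option autoImplicit false

/-!
Subrings of `F_p((t))`: closures, discrete subrings, open subrings of subfields of finite degree.
-/

namespace Pool.Agent.U853.SR

open Finset

variable {p : ℕ} [Fact p.Prime]

/-- The series of order at least `N` (a basis of neighbourhoods of zero). -/
def D (p : ℕ) (N : ℤ) : Set (LaurentSeries (ZMod p)) := {x | ∀ k < N, x.coeff k = 0}

/-- The topological closure. -/
def Cl (S : Set (LaurentSeries (ZMod p))) : Set (LaurentSeries (ZMod p)) :=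
  {x | ∀ N : ℤ, ∃ s ∈ S, x - s ∈ D p N}

lemma D_zero (N : ℤ) : (0 : LaurentSeries (ZMod p)) ∈ D p N := fun _ _ => rfl

lemma D_add {N : ℤ} {x y : LaurentSeries (ZMod p)} (hx : x ∈ D p N) (hy : y ∈ D p N) :
    x + y ∈ D p N := fun k hk => by rw [HahnSeries.coeff_add, hx k hk, hy k hk, add_zero]

lemma D_neg {N : ℤ} {x : LaurentSeries (ZMod p)} (hx : x ∈ D p N) : -x ∈ D p N :=
  fun k hk => by rw [HahnSeries.coeff_neg, hx k hk, neg_zero]

lemma D_sub {N : ℤ} {x y : LaurentSeries (ZMod p)} (hx : x ∈ D p N) (hy : y ∈ D p N) :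
    x - y ∈ D p N := by rw [sub_eq_add_neg]; exact D_add hx (D_neg hy)

lemma D_mono {N M : ℤ} (h : M ≤ N) {x : LaurentSeries (ZMod p)} (hx : x ∈ D p N) : x ∈ D p M :=
  fun k hk => hx k (lt_of_lt_of_le hk h)

lemma mem_D_iff {N : ℤ} {x : LaurentSeries (ZMod p)} (hx : x ≠ 0) : x ∈ D p N ↔ N ≤ x.order := by
  constructor
  · intro h
    by_contra hcon
    push Not at hcon
    exact HahnSeries.coeff_order_eq_zero.not.2 hx (h _ hcon)
  · intro h k hk
    exact HahnSeries.coeff_eq_zero_of_lt_order (lt_of_lt_of_le hk h)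

lemma D_mul {N M : ℤ} {x y : LaurentSeries (ZMod p)} (hx : x ∈ D p N) (hy : y ∈ D p M) :
    x * y ∈ D p (N + M) := by
  rcases eq_or_ne x 0 with rfl | hx0
  · rw [zero_mul]; exact D_zero _
  rcases eq_or_ne y 0 with rfl | hy0
  · rw [mul_zero]; exact D_zero _
  rw [mem_D_iff (mul_ne_zero hx0 hy0), HahnSeries.order_mul hx0 hy0]
  exact add_le_add ((mem_D_iff hx0).1 hx) ((mem_D_iff hy0).1 hy)

lemma eq_zero_of_D {x : LaurentSeries (ZMod p)} (h : ∀ N : ℤ, x ∈ D p N) : x = 0 := by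
  ext k
  exact h (k + 1) k (by omega)

lemma mem_D_order (x : LaurentSeries (ZMod p)) : x ∈ D p x.order :=
  fun _ hk => HahnSeries.coeff_eq_zero_of_lt_order hk

lemma exists_low (x : LaurentSeries (ZMod p)) : ∃ m : ℕ, x ∈ D p (-(m : ℤ)) :=
  ⟨x.order.natAbs, D_mono (by omega) (mem_D_order x)⟩

lemma subset_Cl (S : Set (LaurentSeries (ZMod p))) : S ⊆ Cl S :=
  fun x hx N => ⟨x, hx, by rw [sub_self]; exact D_zero _⟩

lemma Cl_Cl (S : Set (LaurentSeries (ZMod p))) : Cl (Cl S) ⊆ Cl S := by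
  intro x hx N
  obtain ⟨y, hy, h1⟩ := hx N
  obtain ⟨s, hs, h2⟩ := hy N
  exact ⟨s, hs, by rw [← sub_add_sub_cancel x y s]; exact D_add h1 h2⟩

lemma Cl_mono {S T : Set (LaurentSeries (ZMod p))} (h : S ⊆ T) : Cl S ⊆ Cl T := by
  intro x hx N
  obtain ⟨s, hs, h1⟩ := hx N
  exact ⟨s, h hs, h1⟩

/-- The closure of a subring. -/
def clR (R : Subring (LaurentSeries (ZMod p))) : Subring (LaurentSeries (ZMod p)) where
  carrier := Cl (R : Set (LaurentSeries (ZMod p)))
  zero_mem' := subset_Cl _ R.zero_mem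
  one_mem' := subset_Cl _ R.one_mem
  add_mem' := by
    intro x y hx hy N
    obtain ⟨a, ha, h1⟩ := hx N
    obtain ⟨b, hb, h2⟩ := hy N
    exact ⟨a + b, R.add_mem ha hb, by rw [add_sub_add_comm]; exact D_add h1 h2⟩
  neg_mem' := by
    intro x hx N
    obtain ⟨a, ha, h1⟩ := hx N
    exact ⟨-a, R.neg_mem ha, by rw [neg_sub_neg, ← neg_sub]; exact D_neg h1⟩
  mul_mem' := by
    intro x y hx hy N
    obtain ⟨m, hm⟩ := exists_low x
    obtain ⟨n, hn⟩ := exists_low y
    obtain ⟨b, hb, h2⟩ := hy (max (N + m) (-n))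
    obtain ⟨a, ha, h1⟩ := hx (N + n)
    have hb' : b ∈ D p (-(n : ℤ)) := by
      have : b = y - (y - b) := by ring
      rw [this]
      exact D_sub hn (D_mono (le_max_right _ _) h2)
    refine ⟨a * b, R.mul_mem ha hb, ?_⟩
    have h3 : x * y - a * b = x * (y - b) + (x - a) * b := by ring
    rw [h3]
    refine D_add ?_ ?_
    · have h4 := D_mul hm (D_mono (le_max_left _ _) h2)
      have h5 : -(m : ℤ) + (N + m) = N := by ring
      rwa [h5] at h4
    · have h4 := D_mul h1 hb'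
      have h5 : N + (n : ℤ) + -(n : ℤ) = N := by ring
      rwa [h5] at h4

/-- limits of series -/
lemma exists_lim (C : Set (LaurentSeries (ZMod p))) (hC : Cl C ⊆ C) (a : ℕ → LaurentSeries (ZMod p))
    (ha : ∀ n : ℕ, a n ∈ D p n) (hs : ∀ N : ℕ, ∑ n ∈ range N, a n ∈ C) :
    ∃ x ∈ C, ∀ N : ℕ, x - ∑ n ∈ range N, a n ∈ D p N := by
  classical
  let f : PowerSeries (ZMod p) := PowerSeries.mk fun k => ∑ n ∈ range (k + 1), (a n).coeff (k : ℤ)
  let x : LaurentSeries (ZMod p) := (f : LaurentSeries (ZMod p))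
  have hx : ∀ k : ℤ, 0 ≤ k → x.coeff k = ∑ n ∈ range (k.toNat + 1), (a n).coeff k := by
    intro k hk
    obtain ⟨m, rfl⟩ := Int.eq_ofNat_of_zero_le hk
    have h1 : x.coeff (m : ℤ) = f.coeff m := by
      show ((f : PowerSeries (ZMod p)) : LaurentSeries (ZMod p)).coeff (m : ℤ) = _
      exact HahnSeries.ofPowerSeries_apply_coeff _ _
    rw [h1]
    simp [f]
  have hx' : ∀ k : ℤ, k < 0 → x.coeff k = 0 := by
    intro k hk
    exact HahnSeries.embDomain_of_notMem_range (by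
      rintro ⟨m, hm⟩
      have : ((m : ℤ)) = k := hm
      omega)
  have key : ∀ N : ℕ, x - ∑ n ∈ range N, a n ∈ D p N := by
    intro N k hk
    rw [HahnSeries.coeff_sub]
    have h2 : (∑ n ∈ range N, a n).coeff k = ∑ n ∈ range N, (a n).coeff k := by
      rw [HahnSeries.coeff_sum]
    rw [h2]
    rcases lt_or_ge k 0 with h | h
    · rw [hx' k h, zero_sub, neg_eq_zero]
      exact Finset.sum_eq_zero fun n _ => ha n k (by omega)
    · rw [hx k h, sub_eq_zero]
      refine Finset.sum_subset (fun n hn => ?_) fun n hn hn' => ?_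
      · rw [Finset.mem_range] at hn ⊢
        omega
      · rw [Finset.mem_range] at hn'
        exact ha n k (by omega)
  refine ⟨x, hC fun N => ?_, key⟩
  refine ⟨∑ n ∈ range N.toNat, a n, hs _, D_mono (by omega) (key N.toNat)⟩

end Pool.Agent.U853.SR
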