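import Pool.Agent.U853.SR.Tau

set_option autoImplicit false

namespace Pool.Agent.U853.SR

open Finset

variable {p : ℕ} [Fact p.Prime]

lemma tt_order (n : ℕ) : (tt p ^ n).order = n := by
  rw [tt_pow]
  exact HahnSeries.order_single one_ne_zero

theorem sum_order {e : ℕ} (τ : LaurentSeries (ZMod p) →+* LaurentSeries (ZMod p))
    (hord : ∀ x : LaurentSeries (ZMod p), x ≠ 0 → (τ x).order = e * x.order) (S : Finset ℕ)
    (hS : ∀ i ∈ S, i < e) (a : ℕ → LaurentSeries (ZMod p)) (h : ∃ i ∈ S, a i ≠ 0) :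
    (∑ i ∈ S, τ (a i) * tt p ^ i) ≠ 0 ∧
      ∃ i ∈ S, (∑ i ∈ S, τ (a i) * tt p ^ i).order = e * (a i).order + i := by
  classical
  set S' := S.filter fun i => a i ≠ 0 with hS'
  have hne : S'.Nonempty := by
    obtain ⟨i, hi, h1⟩ := h
    exact ⟨i, Finset.mem_filter.2 ⟨hi, h1⟩⟩
  obtain ⟨i₀, hi₀, hmin⟩ := Finset.exists_min_image S'
    (fun i => (e : ℤ) * (a i).order + i) hne
  obtain ⟨hi₀S, ha₀⟩ := Finset.mem_filter.1 hi₀
  set n : ℤ := e * (a i₀).order + i₀ with hn
  have hterm : ∀ i, a i ≠ 0 → (τ (a i) * tt p ^ i).order = e * (a i).order + i := by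
    intro i hi
    rw [HahnSeries.order_mul ((map_ne_zero τ).2 hi) (pow_ne_zero i tt_ne_zero), hord _ hi,
      tt_order]
  have hterm0 : ∀ i, a i ≠ 0 → τ (a i) * tt p ^ i ≠ 0 := fun i hi =>
    mul_ne_zero ((map_ne_zero τ).2 hi) (pow_ne_zero i tt_ne_zero)
  have hgt : ∀ i ∈ S, i ≠ i₀ → a i ≠ 0 → n < e * (a i).order + i := by
    intro i hi hne' hai
    refine lt_of_le_of_ne (hmin i (Finset.mem_filter.2 ⟨hi, hai⟩)) fun h1 => hne' ?_
    have h2 : ((e : ℤ) * (a i).order + i) % e = i := by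
      rw [add_comm, Int.add_mul_emod_self_left]
      exact Int.emod_eq_of_lt (by omega) (by exact_mod_cast hS i hi)
    have h3 : ((e : ℤ) * (a i₀).order + i₀) % e = i₀ := by
      rw [add_comm, Int.add_mul_emod_self_left]
      exact Int.emod_eq_of_lt (by omega) (by exact_mod_cast hS i₀ hi₀S)
    rw [hn] at h1
    rw [← h1, h3] at h2
    exact_mod_cast h2.symm
  have hcoef : (∑ i ∈ S, τ (a i) * tt p ^ i).coeff n ≠ 0 := by
    rw [HahnSeries.coeff_sum, Finset.sum_eq_single_of_mem i₀ hi₀S]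
    · rw [hn, ← hterm i₀ ha₀]
      exact HahnSeries.coeff_order_eq_zero.not.2 (hterm0 i₀ ha₀)
    · intro i hi hne'
      rcases eq_or_ne (a i) 0 with h0 | h0
      · rw [h0, map_zero, zero_mul]
        rfl
      · refine HahnSeries.coeff_eq_zero_of_lt_order ?_
        rw [hterm i h0]
        exact hgt i hi hne' h0
  have hne0 : (∑ i ∈ S, τ (a i) * tt p ^ i) ≠ 0 := by
    intro h0
    rw [h0] at hcoef
    exact hcoef rfl
  refine ⟨hne0, i₀, hi₀S, le_antisymm (HahnSeries.order_le_of_coeff_ne_zero hcoef) ?_⟩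
  rw [← mem_D_iff hne0]
  have : ∀ T : Finset ℕ, T ⊆ S → (∑ i ∈ T, τ (a i) * tt p ^ i) ∈ D p n := by
    intro T
    induction T using Finset.induction_on with
    | empty => exact fun _ => by simpa using D_zero n
    | insert b T hb ih =>
      intro hT
      rw [Finset.sum_insert hb]
      refine D_add ?_ (ih fun i hi => hT (Finset.mem_insert_of_mem hi))
      rcases eq_or_ne (a b) 0 with h0 | h0
      · rw [h0, map_zero, zero_mul]
        exact D_zero n
      · rw [mem_D_iff (hterm0 b h0), hterm b h0]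
        exact hmin b (Finset.mem_filter.2 ⟨hT (Finset.mem_insert_self b T), h0⟩)
  exact this S subset_rfl

theorem exists_dat (L : Subfield (LaurentSeries (ZMod p)))
    (hL : Cl (L : Set (LaurentSeries (ZMod p))) ⊆ (L : Set (LaurentSeries (ZMod p))))
    (h : ∃ x ∈ L, x ≠ 0 ∧ x ∈ D p 1) :
    ∃ (e : ℕ) (τ : LaurentSeries (ZMod p) →+* LaurentSeries (ZMod p)), 1 ≤ e ∧
      (∀ x, x ∈ L ↔ ∃ y, τ y = x) ∧
      (∀ x : LaurentSeries (ZMod p), x ≠ 0 → (τ x).order = e * x.order) ∧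
      (∀ y, ∃ a : ℕ → LaurentSeries (ZMod p), y = ∑ i ∈ range e, τ (a i) * tt p ^ i) ∧
      (∀ a : ℕ → LaurentSeries (ZMod p), ∑ i ∈ range e, τ (a i) * tt p ^ i = 0 →
        ∀ i < e, a i = 0) := by
  classical
  obtain ⟨x₀, hx₀L, hx₀, hx₀1⟩ := h
  have hex : ∃ n : ℕ, 1 ≤ n ∧ ∃ s ∈ L, s ≠ 0 ∧ s.order = n := by
    have h1 := (mem_D_iff hx₀).1 hx₀1
    refine ⟨x₀.order.toNat, by omega, x₀, hx₀L, hx₀, by omega⟩
  set e := Nat.find hex with he
  obtain ⟨he1, s, hsL, hs0, hse⟩ := Nat.find_spec hex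
  rw [← he] at he1 hse
  have hmin : ∀ x ∈ L, x ≠ 0 → 1 ≤ x.order → (e : ℤ) ≤ x.order := by
    intro x hx hx0 h1
    have : e ≤ x.order.toNat := Nat.find_min' hex ⟨by omega, x, hx, hx0, by omega⟩
    omega
  have hdvd : ∀ x ∈ L, x ≠ 0 → x.order % e = 0 := by
    intro x hx hx0
    by_contra hcon
    set q := x.order / e with hq
    have h1 : x.order = e * q + x.order % e := (Int.mul_ediv_add_emod _ _).symm
    have h2 : 0 ≤ x.order % e := Int.emod_nonneg _ (by omega)
    have h3 : x.order % e < e := Int.emod_lt_of_pos _ (by omega)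
    have h4 : x * s ^ (-q) ∈ L := L.mul_mem hx (zpow_mem hsL _)
    have h5 : x * s ^ (-q) ≠ 0 := mul_ne_zero hx0 (zpow_ne_zero _ hs0)
    have hzp : ∀ q : ℤ, (s ^ q).order = e * q := by
      intro q
      have hnat : ∀ m : ℕ, (s ^ m).order = e * m := by
        intro m
        rw [HahnSeries.order_pow, hse, nsmul_eq_mul, mul_comm]
      obtain ⟨m, rfl | rfl⟩ := Int.eq_nat_or_neg q
      · rw [zpow_natCast]
        exact hnat m
      · rw [zpow_neg, zpow_natCast]
        have h6 := HahnSeries.order_mul (pow_ne_zero m hs0) (inv_ne_zero (pow_ne_zero m hs0))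
        rw [mul_inv_cancel₀ (pow_ne_zero m hs0), HahnSeries.order_one, hnat] at h6
        linarith
    have h6 : (x * s ^ (-q)).order = x.order % e := by
      rw [HahnSeries.order_mul hx0 (zpow_ne_zero _ hs0), hzp]
      linarith
    have h7 := hmin _ h4 h5 (by omega)
    omega
  have hs1 : s ∈ D p 1 := (mem_D_iff hs0).2 (by omega)
  obtain ⟨τ, hτt, hτO, hτ⟩ := exists_tau hs0 hs1
  have hord : ∀ x : LaurentSeries (ZMod p), x ≠ 0 → (τ x).order = e * x.order := fun x hx =>
    order_tau hs0 hse τ hτt hτO hx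
  have hdec := decomp hs0 hse he1 τ hτt hτ
  have hrange1 : ∀ y, τ y ∈ L := by
    intro y
    obtain ⟨m, hm⟩ := exists_low y
    have h1 : tt p ^ m * y ∈ D p 0 := by
      have := D_mul (tt_mem (p := p) m) hm
      rwa [add_neg_cancel] at this
    have h2 : τ (tt p ^ m * y) ∈ L := by
      refine hL fun N => ?_
      refine ⟨∑ n ∈ range N.toNat, ((((tt p ^ m * y).coeff (n : ℤ)).val : ℕ) :
        LaurentSeries (ZMod p)) * s ^ n, ?_, ?_⟩
      · exact L.sum_mem fun n _ => L.mul_mem (_root_.natCast_mem L _) (L.pow_mem hsL n)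
      · have h3 := hτ (fun n => (tt p ^ m * y).coeff (n : ℤ)) N.toNat
        rw [ofPS_mk h1] at h3
        exact D_mono (by omega) h3
    have h3 : τ y = (s ^ m)⁻¹ * τ (tt p ^ m * y) := by
      rw [map_mul, map_pow, hτt, ← mul_assoc, inv_mul_cancel₀ (pow_ne_zero m hs0), one_mul]
    rw [h3]
    exact L.mul_mem (L.inv_mem (L.pow_mem hsL m)) h2
  refine ⟨e, τ, he1, fun x => ⟨fun hx => ?_, ?_⟩, hord, hdec, fun a ha i hi => ?_⟩
  · obtain ⟨a, ha⟩ := hdec x
    refine ⟨a 0, ?_⟩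
    by_contra hne
    have h1 : x - τ (a 0) ∈ L := L.sub_mem hx (hrange1 _)
    have h2 : x - τ (a 0) = ∑ i ∈ (range e).erase 0, τ (a i) * tt p ^ i := by
      have h3 := Finset.add_sum_erase (range e) (fun i => τ (a i) * tt p ^ i)
        (Finset.mem_range.2 (by omega) : 0 ∈ range e)
      rw [← ha] at h3
      simp only [pow_zero, mul_one] at h3
      rw [← h3]
      ring
    have h0 : x - τ (a 0) ≠ 0 := fun h => hne (sub_eq_zero.1 h).symm
    have h3 : ∃ i ∈ (range e).erase 0, a i ≠ 0 := by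
      by_contra hcon
      push Not at hcon
      refine h0 ?_
      rw [h2]
      exact Finset.sum_eq_zero fun i hi => by rw [hcon i hi, map_zero, zero_mul]
    obtain ⟨_, i, hi, h4⟩ := sum_order τ hord ((range e).erase 0)
      (fun i hi => Finset.mem_range.1 (Finset.mem_of_mem_erase hi)) a h3
    rw [← h2] at h4
    have h5 := hdvd _ h1 h0
    rw [h4, add_comm, Int.add_mul_emod_self_left, Int.emod_eq_of_lt (by omega)
      (by exact_mod_cast Finset.mem_range.1 (Finset.mem_of_mem_erase hi))] at h5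
    exact Finset.ne_of_mem_erase hi (by exact_mod_cast h5)
  · rintro ⟨y, rfl⟩
    exact hrange1 y
  · by_contra hne
    exact (sum_order τ hord (range e) (fun i hi => Finset.mem_range.1 hi) a
      ⟨i, Finset.mem_range.2 hi, hne⟩).1 ha

end Pool.Agent.U853.SR
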