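import Pool.Agent.U853.SR.Tr

set_option autoImplicit false

namespace Pool.Agent.U853.SR

open Pool.Agent.Y924.EL Pool.Agent.R794.FP Function Finset

section

variable {K : Type*} [Field K] {O : Set K} {e : ℕ} {τ : K →+* K} {t : K}

/-- the subset of `K^n` defined by a formula -/
def DS (O : Set K) (ψ : Fm) (n : ℕ) (w : ℕ → K) : Set (Fin n → K) :=
  {x | Sat O ψ (fun i => if h : i < n then x ⟨i, h⟩ else w i)}

theorem transfer (he : 1 ≤ e) (hd : ∀ y, ∃ a : ℕ → K, y = ∑ i ∈ range e, τ (a i) * t ^ i)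
    (hu : ∀ a : ℕ → K, ∑ i ∈ range e, τ (a i) * t ^ i = 0 → ∀ i < e, a i = 0)
    (g : ℕ → K) (hg : ∀ k, t ^ k = ∑ l ∈ range e, τ (g (3 * e * k + (e + l))) * t ^ l)
    (C C' : Set K) (hC : ∀ y, y ∈ C ↔ ∃ x ∈ C', τ x = y)
    (hC' : ∀ i, Rep O (Gd e g) (fun w => w i ∈ C'))
    (H : ∀ ψ : Fm, ∃ N : ℕ, ∀ w : ℕ → K, (DS O ψ e w).Finite → (DS O ψ e w).ncard ≤ N)
    (φ : Fm) : ∃ N : ℕ, ∀ v : ℕ → K, {x | Sat C φ (update v 0 x)}.Finite →
      {x | Sat C φ (update v 0 x)}.ncard ≤ N := by
  obtain ⟨ψ, hψ⟩ := tr he hd hu g hg C C' hC hC' φ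
  obtain ⟨N, hN⟩ := H ψ
  refine ⟨N, fun v => ?_⟩
  choose a ha using hd
  let w : ℕ → K := fun i => if i % (3 * e) < e then a (v (i / (3 * e))) (i % (3 * e)) else g i
  have hw : Gd e g w := fun i hi => if_neg (by omega)
  have hdw : dec e τ t w = v := by
    funext n
    rw [ha (v n)]
    refine Finset.sum_congr rfl fun l hl => ?_
    rw [Finset.mem_range] at hl
    have h1 : w (3 * e * n + l) = a (v n) l := by
      show (if (3 * e * n + l) % (3 * e) < e then _ else _) = _
      rw [enc_mod (by omega), enc_div (by omega), if_pos hl]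
    rw [h1]
  let F : (Fin e → K) → K := fun x => ∑ l ∈ range e, τ (if h : l < e then x ⟨l, h⟩ else 0) * t ^ l
  have hFinj : Injective F := by
    intro x y hxy
    have h1 := (uniq hu (fun l => if h : l < e then x ⟨l, h⟩ else 0)
      (fun l => if h : l < e then y ⟨l, h⟩ else 0)).1 hxy
    funext i
    have h2 := h1 i (Finset.mem_range.2 i.2)
    simpa [i.2] using h2
  have hFsurj : Surjective F := by
    intro y
    refine ⟨fun i => a y i, ?_⟩
    rw [ha y]
    refine Finset.sum_congr rfl fun l hl => ?_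
    rw [dif_pos (Finset.mem_range.1 hl), ← ha y]
  have key : ∀ x : Fin e → K, x ∈ DS O ψ e w ↔ F x ∈ {x | Sat C φ (update v 0 x)} := by
    intro x
    set w' : ℕ → K := fun i => if h : i < e then x ⟨i, h⟩ else w i with hw'
    have h1 : Gd e g w' := by
      intro i hi
      have h2 : i % (3 * e) ≤ i := Nat.mod_le _ _
      rw [hw']
      show (if h : i < e then x ⟨i, h⟩ else w i) = g i
      rw [dif_neg (by omega)]
      exact hw i hi
    have h2 : dec e τ t w' = update v 0 (F x) := by
      funext n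
      rcases eq_or_ne n 0 with rfl | hn
      · rw [update_self]
        refine Finset.sum_congr rfl fun l hl => ?_
        rw [Finset.mem_range] at hl
        have h3 : w' (3 * e * 0 + l) = if h : l < e then x ⟨l, h⟩ else 0 := by
          rw [mul_zero, zero_add, hw']
          show (if h : l < e then x ⟨l, h⟩ else w l) = _
          rw [dif_pos hl, dif_pos hl]
        rw [h3]
      · rw [update_of_ne hn, ← hdw]
        refine Finset.sum_congr rfl fun l hl => ?_
        rw [Finset.mem_range] at hl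
        have h4 : 3 * e * 1 ≤ 3 * e * n := Nat.mul_le_mul_left _ (by omega)
        have h3 : w' (3 * e * n + l) = w (3 * e * n + l) := by
          rw [hw']
          show (if h : 3 * e * n + l < e then _ else _) = _
          rw [dif_neg (by omega)]
        rw [h3]
    show Sat O ψ w' ↔ Sat C φ (update v 0 (F x))
    have h6 := hψ w' h1
    simp only [h2] at h6
    exact h6.symm
  have h5 : {x | Sat C φ (update v 0 x)} = F '' DS O ψ e w := by
    ext y
    constructor
    · intro hy
      obtain ⟨x, rfl⟩ := hFsurj y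
      exact ⟨x, (key x).2 hy, rfl⟩
    · rintro ⟨x, hx, rfl⟩
      exact (key x).1 hx
  intro hfin
  rw [h5, Set.ncard_image_of_injective _ hFinj]
  refine hN w ?_
  rw [h5] at hfin
  exact hfin.of_finite_image hFinj.injOn

end

end Pool.Agent.U853.SR
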