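import Pool.Agent.U853.SR.Span

set_option autoImplicit false

namespace Pool.Agent.U853.SR

open Finset

variable {p : ℕ} [Fact p.Prime]

/-- common denominators -/
lemma common_den (C : Subring (LaurentSeries (ZMod p))) (g : ℕ → LaurentSeries (ZMod p))
    (hg : ∀ i, g i ∈ Subfield.closure (C : Set (LaurentSeries (ZMod p)))) (n : ℕ) :
    ∃ q ∈ C, q ≠ 0 ∧ ∀ i < n, q * g i ∈ C := by
  induction n with
  | zero => exact ⟨1, C.one_mem, one_ne_zero, fun i hi => absurd hi (by omega)⟩
  | succ n ih =>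
    obtain ⟨q, hq, hq0, h⟩ := ih
    obtain ⟨a, ha, b, hb, hab⟩ := Subfield.mem_closure_iff.1 (hg n)
    rw [Subring.closure_eq] at ha hb
    rcases eq_or_ne b 0 with rfl | hb0
    · refine ⟨q, hq, hq0, fun i hi => ?_⟩
      rcases Nat.lt_succ_iff_lt_or_eq.1 hi with h1 | rfl
      · exact h i h1
      · rw [← hab, div_zero, mul_zero]; exact C.zero_mem
    · refine ⟨q * b, C.mul_mem hq hb, mul_ne_zero hq0 hb0, fun i hi => ?_⟩
      rcases Nat.lt_succ_iff_lt_or_eq.1 hi with h1 | rfl
      · have := C.mul_mem (h i h1) hb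
        have h2 : q * b * g i = q * g i * b := by ring
        rwa [h2]
      · rw [← hab]
        have h2 : q * b * (a / b) = q * a := by field_simp
        rw [h2]
        exact C.mul_mem hq ha

/-- `C` (with closure `C`) is an open subring of the closed subfield `L` of finite degree -/
structure OpenIn (C : Subring (LaurentSeries (ZMod p))) (L : Subfield (LaurentSeries (ZMod p))) :
    Prop where
  sub : ∀ x ∈ C, x ∈ L
  closed : Cl (L : Set (LaurentSeries (ZMod p))) ⊆ (L : Set (LaurentSeries (ZMod p)))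
  finite : Module.Finite L (LaurentSeries (ZMod p))
  isOpen : ∃ N : ℤ, ∀ x ∈ L, x ∈ D p N → x ∈ C
  alt : (∀ x ∈ L, x ∈ C) ∨ ∀ x ∈ C, x ∈ D p 0

theorem main_closed (C : Subring (LaurentSeries (ZMod p)))
    (hC : Cl (C : Set (LaurentSeries (ZMod p))) ⊆ (C : Set (LaurentSeries (ZMod p))))
    (hx : ∃ x ∈ C, x ≠ 0 ∧ x ∈ D p 1) :
    OpenIn C (Subfield.closure (C : Set (LaurentSeries (ZMod p)))) := by
  classical
  obtain ⟨x, hxC, hx0, hx1⟩ := hx
  set L := Subfield.closure (C : Set (LaurentSeries (ZMod p))) with hL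
  have hsub : ∀ y ∈ C, y ∈ L := fun y hy => Subfield.subset_closure hy
  obtain ⟨d, hd⟩ : ∃ d : ℕ, x.order = d :=
    Int.eq_ofNat_of_zero_le (by have := (mem_D_iff hx0).1 hx1; omega)
  have hd1 : 1 ≤ d := by
    have := (mem_D_iff hx0).1 hx1
    omega
  have hspan := fun {y : LaurentSeries (ZMod p)} (hy : y ∈ D p 0) => span_O C hC hxC hx0 hd hd1 hy
  -- every element is `x ^ (-m)` times an element of `O`
  have hscale : ∀ y : LaurentSeries (ZMod p), ∃ m : ℕ, x ^ m * y ∈ D p 0 := by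
    intro y
    obtain ⟨m, hm⟩ := exists_low y
    refine ⟨m, ?_⟩
    have := D_mul (pow_mem_D hx1 m) hm
    rwa [add_neg_cancel] at this
  have hfin : Module.Finite L (LaurentSeries (ZMod p)) := by
    refine ⟨⟨(range d).image fun i => tt p ^ i, ?_⟩⟩
    rw [eq_top_iff]
    rintro y -
    obtain ⟨m, hm⟩ := hscale y
    obtain ⟨a, ha, hy⟩ := hspan hm
    have h1 : y = ∑ i ∈ range d, (⟨(x ^ m)⁻¹ * a i, L.mul_mem (L.inv_mem (L.pow_mem (hsub x hxC) m))
        (hsub _ (ha i).1)⟩ : L) • tt p ^ i := by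
      have h2 : y = (x ^ m)⁻¹ * (x ^ m * y) := by
        rw [← mul_assoc, inv_mul_cancel₀ (pow_ne_zero m hx0), one_mul]
      rw [h2, hy, Finset.mul_sum]
      refine Finset.sum_congr rfl fun i _ => ?_
      show (x ^ m)⁻¹ * (a i * tt p ^ i) = ((x ^ m)⁻¹ * a i) * tt p ^ i
      ring
    rw [h1]
    refine Submodule.sum_mem _ fun i hi => Submodule.smul_mem _ _ (Submodule.subset_span ?_)
    exact Finset.mem_coe.2 (Finset.mem_image_of_mem _ hi)
  -- a linear functional with `f 1 = 1`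
  obtain ⟨f, hf⟩ : ∃ f : LaurentSeries (ZMod p) →ₗ[L] L, f 1 = 1 := by
    have hinj : LinearMap.ker (Algebra.linearMap L (LaurentSeries (ZMod p))) = ⊥ :=
      LinearMap.ker_eq_bot.2 (FaithfulSMul.algebraMap_injective L (LaurentSeries (ZMod p)))
    obtain ⟨f, hf⟩ := LinearMap.exists_leftInverse_of_injective _ hinj
    refine ⟨f, ?_⟩
    have := LinearMap.congr_fun hf 1
    simpa using this
  have hfL : ∀ z : L, f (z : LaurentSeries (ZMod p)) = z := by
    intro z
    have h1 : (z : LaurentSeries (ZMod p)) = z • (1 : LaurentSeries (ZMod p)) := by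
      show (z : LaurentSeries (ZMod p)) = (z : LaurentSeries (ZMod p)) * 1
      ring
    rw [h1, map_smul, hf, smul_eq_mul, mul_one]
  obtain ⟨q, hq, hq0, hqf⟩ := common_den C (fun i => (f (tt p ^ i) : LaurentSeries (ZMod p)))
    (fun i => (f (tt p ^ i)).2) d
  have hopen : ∀ z ∈ L, z ∈ D p q.order → z ∈ C := by
    intro z hz hzD
    have h1 : q⁻¹ * z ∈ D p 0 := by
      have := D_mul (inv_mem hq0) hzD
      rwa [neg_add_cancel] at this
    obtain ⟨a, ha, hy⟩ := hspan h1
    have h2 : z = ∑ i ∈ range d, a i * (q * (f (tt p ^ i) : LaurentSeries (ZMod p))) := by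
      have h3 : z = q * ∑ i ∈ range d, a i * tt p ^ i := by
        rw [← hy, ← mul_assoc, mul_inv_cancel₀ hq0, one_mul]
      have h4 : (⟨z, hz⟩ : L) = ∑ i ∈ range d, (⟨q, hsub q hq⟩ * ⟨a i, hsub _ (ha i).1⟩ : L) * f (tt p ^ i) := by
        have h5 := hfL ⟨z, hz⟩
        rw [← h5]
        have h6 : ((⟨z, hz⟩ : L) : LaurentSeries (ZMod p)) =
            ∑ i ∈ range d, (⟨q, hsub q hq⟩ * ⟨a i, hsub _ (ha i).1⟩ : L) • tt p ^ i := by
          show z = _
          rw [h3, Finset.mul_sum]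
          refine Finset.sum_congr rfl fun i _ => ?_
          show q * (a i * tt p ^ i) = (q * a i) * tt p ^ i
          ring
        rw [h6, map_sum]
        refine Finset.sum_congr rfl fun i _ => ?_
        rw [map_smul, smul_eq_mul]
      have h7 := congrArg (fun w : L => (w : LaurentSeries (ZMod p))) h4
      simp only [AddSubmonoidClass.coe_finset_sum, MulMemClass.coe_mul] at h7
      rw [h7]
      exact Finset.sum_congr rfl fun i _ => by ring
    rw [h2]
    exact C.sum_mem fun i hi => C.mul_mem (ha i).1 (hqf i (Finset.mem_range.1 hi))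
  refine ⟨hsub, ?_, hfin, ⟨q.order, hopen⟩, ?_⟩
  · -- closed
    intro z hz
    obtain ⟨l, hl, h1⟩ := hz q.order
    have h2 : z - l ∈ C := by
      refine hC fun N => ?_
      obtain ⟨l', hl', h3⟩ := hz (max N q.order)
      refine ⟨l' - l, hopen _ (L.sub_mem hl' hl) ?_, ?_⟩
      · have h4 : l' - l = (z - l) - (z - l') := by ring
        rw [h4]
        exact D_sub h1 (D_mono (le_max_right _ _) h3)
      · have h4 : z - l - (l' - l) = z - l' := by ring
        rw [h4]
        exact D_mono (le_max_left _ _) h3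
    have h3 := L.add_mem (hsub _ h2) hl
    rwa [sub_add_cancel] at h3
  · -- the alternative
    by_cases h : ∀ y ∈ C, y ∈ D p 0
    · exact Or.inr h
    left
    push Not at h
    obtain ⟨w, hwC, hw⟩ := h
    have hw0 : w ≠ 0 := by
      rintro rfl
      exact hw (D_zero _)
    have hwo : w.order ≤ -1 := by
      by_contra hcon
      exact hw ((mem_D_iff hw0).2 (by omega))
    -- `x⁻¹ ∈ C`
    have hxinv : x⁻¹ ∈ C := by
      obtain ⟨k, hk⟩ : ∃ k : ℕ, q.order ≤ (k : ℤ) - x.order := ⟨(q.order + x.order).toNat, by omega⟩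
      have h1 : w⁻¹ ∈ D p 1 := D_mono (by omega) (inv_mem hw0)
      have h2 : (w⁻¹) ^ k * x⁻¹ ∈ C := by
        refine hopen _ (L.mul_mem (L.pow_mem (L.inv_mem (hsub w hwC)) k) (L.inv_mem (hsub x hxC))) ?_
        exact D_mono hk (by
          have := D_mul (pow_mem_D h1 k) (inv_mem hx0)
          exact this)
      have h3 : x⁻¹ = w ^ k * ((w⁻¹) ^ k * x⁻¹) := by
        rw [← mul_assoc, ← mul_pow, mul_inv_cancel₀ hw0, one_pow, one_mul]
      rw [h3]
      exact C.mul_mem (C.pow_mem hwC k) h2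
    intro l hl
    obtain ⟨m, hm⟩ := exists_low l
    obtain ⟨k, hk⟩ : ∃ k : ℕ, q.order ≤ (k : ℤ) - m := ⟨(q.order + m).toNat, by omega⟩
    have h1 : x ^ k * l ∈ C := by
      refine hopen _ (L.mul_mem (L.pow_mem (hsub x hxC) k) hl) ?_
      exact D_mono hk (D_mul (pow_mem_D hx1 k) hm)
    have h2 : l = (x⁻¹) ^ k * (x ^ k * l) := by
      rw [← mul_assoc, ← mul_pow, inv_mul_cancel₀ hx0, one_pow, one_mul]
    rw [h2]
    exact C.mul_mem (C.pow_mem hxinv k) h1

end Pool.Agent.U853.SR
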