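import Pool.Agent.Results.MP_db9079_lc.LocallyFiniteValues
import Pool.Agent.U853.SR.Fin
import Pool.Agent.U853.SR.Dec
import Pool.Agent.U853.SR.Main

set_option autoImplicit false

namespace Pool.Agent.U853.SR

open Pool.Agent.Y924.EL Function
open Pool.Agent.Results.MP_db9079_lc.UniformFiniteness
open Pool.Agent.Results.MP_db9079_lc.LocallyFiniteValues

variable {p : ℕ} [Fact p.Prime]

theorem ds_of_tame (P : Set (LaurentSeries (ZMod p))) (h : Tame p P) (n : ℕ) (ψ : Fm) :
    ∃ N : ℕ, ∀ w : ℕ → LaurentSeries (ZMod p),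
      (DS P ψ n w).Finite → (DS P ψ n w).ncard ≤ N := by
  obtain ⟨N, hN⟩ := lftame_of_tame P h (idF n ψ) n n
  refine ⟨N, fun v hfin => ?_⟩
  obtain ⟨h1, h2⟩ := hN (fun i => v (i - n))
  have hR' : ∀ x y, DRel p P (idF n ψ) n n (fun i => v (i - n)) x y ↔
      x ∈ DSet p P ψ n v ∧ y = x := drel_idF P ψ n v
  have hS : DSet p P ψ n v = DS P ψ n v := rfl
  refine le_trans (Set.ncard_le_ncard ?_ h1) h2
  intro y hy
  refine ⟨y, (hR' y y).2 ⟨hy, rfl⟩, 1, one_ne_zero, hfin.subset ?_⟩
  rintro y' ⟨x', h3, _⟩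
  obtain ⟨h4, h5⟩ := (hR' x' y').1 h3
  rw [h5]
  exact h4

/-- the constants -/
theorem exists_g {K : Type*} [Field K] (O : Set K) (e : ℕ) (he : 1 ≤ e) (c : ℕ → ℕ → K)
    (b : ℕ → K) : ∃ g : ℕ → K, (∀ k l, l < e → g (3 * e * k + (e + l)) = c k l) ∧
      ∀ k, g (3 * e * k + 2 * e) = b k := by
  refine ⟨fun i => if i % (3 * e) < 2 * e then c (i / (3 * e)) (i % (3 * e) - e) else
    b (i / (3 * e)), fun k l hl => ?_, fun k => ?_⟩
  · show (if (3 * e * k + (e + l)) % (3 * e) < 2 * e then _ else _) = _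
    rw [enc_mod (by omega), enc_div (by omega), if_pos (by omega), Nat.add_sub_cancel_left]
  · show (if (3 * e * k + 2 * e) % (3 * e) < 2 * e then _ else _) = _
    rw [enc_mod (by omega), enc_div (by omega), if_neg (by omega)]

theorem rep_T {K : Type*} [Field K] {O : Set K} {e : ℕ} (he : 1 ≤ e) (T : Set K) (hT : T.Finite)
    (b : K) (c : ℕ → ℕ → K) : ∃ g : ℕ → K, (∀ k l, l < e → g (3 * e * k + (e + l)) = c k l) ∧
      ∀ C' : Set K, (∀ x, x ∈ C' ↔ ∃ r ∈ T, ∃ z ∈ O, x = r + b * z) →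
        ∀ i, Rep O (Gd e g) (fun w => w i ∈ C') := by
  classical
  obtain ⟨l, hl⟩ : ∃ l : List K, ∀ x, x ∈ T ↔ x ∈ l :=
    ⟨hT.toFinset.toList, fun x => by simp⟩
  obtain ⟨g, hg1, hg2⟩ := exists_g O e he c (fun k => if k = 0 then b else l.getD (k - 1) 0)
  refine ⟨g, hg1, fun C' hC' i => ?_⟩
  refine (Rep.any (Finset.range l.length) (R := fun j w => ∃ z ∈ O, w i =
    w (3 * e * (j + 1) + 2 * e) + w (3 * e * 0 + 2 * e) * z) fun j _ => rep_coset _ _ _).congr
    fun w hw => ?_
  have h0 : w (3 * e * 0 + 2 * e) = b := by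
    rw [hw _ (by rw [enc_mod (by omega)]; omega), hg2, if_pos rfl]
  have h1 : ∀ j < l.length, w (3 * e * (j + 1) + 2 * e) = l.getD j 0 := fun j hj => by
    rw [hw _ (by rw [enc_mod (by omega)]; omega), hg2, if_neg (by omega), Nat.add_sub_cancel]
  rw [hC']
  constructor
  · rintro ⟨r, hr, z, hz, h2⟩
    obtain ⟨j, hj, h3⟩ := List.mem_iff_getElem.1 ((hl r).1 hr)
    refine ⟨j, Finset.mem_range.2 hj, z, hz, ?_⟩
    rw [h0, h1 j hj, h2, List.getD_eq_getElem _ _ hj, h3]
  · rintro ⟨j, hj, z, hz, h2⟩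
    rw [Finset.mem_range] at hj
    refine ⟨l.getD j 0, ?_, z, hz, ?_⟩
    · rw [List.getD_eq_getElem _ _ hj]
      exact (hl _).2 (List.getElem_mem hj)
    · rw [h2, h0, h1 j hj]

lemma val_iff (x : LaurentSeries (ZMod p)) : x ∈ ValRing p ↔ x ∈ D p 0 := by
  constructor
  · rintro ⟨f, rfl⟩
    rw [LaurentSeries.coe_algebraMap]
    exact ofPS_mem f
  · intro hx
    refine ⟨PowerSeries.mk fun n => x.coeff (n : ℤ), ?_⟩
    rw [LaurentSeries.coe_algebraMap]
    exact ofPS_mk hx

lemma PF.pow {K : Type*} [Field K] {M : ℕ} {f : (ℕ → K) → K} (h : PF M f) (n : ℕ) :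
    PF M (fun w => f w ^ n) := by
  induction n with
  | zero => simpa using PF.one
  | succ n ih => simpa [pow_succ] using ih.mul h

/-- the valuation ring is definable with the parameter `t` -/
theorem rep_val {P : Set (LaurentSeries (ZMod p))} (g : ℕ → LaurentSeries (ZMod p)) {e j : ℕ}
    (hj : e ≤ j % (3 * e)) (hgj : g j = tt p) (i : ℕ) :
    Rep P (Gd e g) (fun w => w i ∈ ValRing p) := by
  have h1 := (Pool.Agent.Y748.UF.t_VAL Pool.Agent.Y675.UF.t_ROOT p).1
  set k := i + j + 1 with hk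
  have h2 : PF (K := LaurentSeries (ZMod p)) (k + 2) (fun w => w k ^ (p + 1)) :=
    (PF.var k (by omega)).pow _
  have h3 : PF (K := LaurentSeries (ZMod p)) (k + 2) (fun w => 1 + w j * w i ^ (p + 1)) :=
    PF.one.add ((PF.var j (by omega)).mul ((PF.var i (by omega)).pow _))
  have h4 := Rep.ex (O := P) (G := fun _ => True) (k + 1) (fun _ _ _ => trivial)
    ((h2.rep (O := P) (k + 1)).and (h3.rep (O := P) (k + 1)))
  have h5 := (Rep.ex (O := P) (G := fun _ => True) k (fun _ _ _ => trivial) h4).weaken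
    (G := Gd e g)
  refine h5.congr fun w hw => ?_
  have h6 : w i ∈ ValRing p ↔ ∃ y, y ^ (p + 1) = 1 + tt p * w i ^ (p + 1) := h1 (w i)
  rw [h6]
  refine exists_congr fun y => ?_
  have e1 : ∀ x : LaurentSeries (ZMod p), update (update w k y) (k + 1) x k = y := fun x => by
    rw [update_of_ne (by omega), update_self]
  have e2 : ∀ x : LaurentSeries (ZMod p), update (update w k y) (k + 1) x i = w i := fun x => by
    rw [update_of_ne (by omega), update_of_ne (by omega)]
  have e3 : ∀ x : LaurentSeries (ZMod p), update (update w k y) (k + 1) x j = tt p := fun x => by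
    rw [update_of_ne (by omega), update_of_ne (by omega), hw j hj, hgj]
  constructor
  · intro h
    refine ⟨y ^ (p + 1), ?_, ?_⟩
    · rw [update_self, e1]
    · rw [update_self, e3, e2, h]
  · rintro ⟨x, h7, h8⟩
    rw [update_self, e1] at h7
    rw [update_self, e3, e2] at h8
    rw [← h7, h8]

/-- tameness of the field with any predicate implies tameness of the valued field -/
theorem tame_val (P : Set (LaurentSeries (ZMod p))) (h : Tame p P) : Tame p (ValRing p) := by
  obtain ⟨g, hg1, hg2⟩ := exists_g P 1 le_rfl (fun _ _ => 1) (fun _ => tt p)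
  refine tame_of_uniform p _ fun φ => ?_
  refine transfer (O := P) (e := 1) (τ := RingHom.id _) (t := 1) le_rfl (fun y => ⟨fun _ => y, ?_⟩)
    (fun a ha i hi => ?_) g (fun k => ?_) (ValRing p) (ValRing p) (fun y => ?_)
    (rep_val g (j := 3 * 1 * 0 + 2 * 1) (by norm_num) (hg2 0)) (fun ψ => ds_of_tame P h 1 ψ) φ
  · simp
  · have : i = 0 := by omega
    subst this
    simpa using ha
  · rw [Finset.sum_range_one, hg1 k 0 (by norm_num)]
    simp
  · simp

/-- expansions by finite sets -/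
theorem tame_finite (C : Set (LaurentSeries (ZMod p))) (hC : C.Finite)
    (h : Tame p (ValRing p)) : Tame p C := by
  obtain ⟨g, hg1, hg2⟩ := rep_T (O := ValRing p) (e := 1) le_rfl C hC 0 (fun _ _ => 1)
  refine tame_of_uniform p _ fun φ => ?_
  refine transfer (O := ValRing p) (e := 1) (τ := RingHom.id _) (t := 1) le_rfl
    (fun y => ⟨fun _ => y, ?_⟩) (fun a ha i hi => ?_) g (fun k => ?_) C C (fun y => ?_)
    (hg2 C fun x => ?_) (fun ψ => ds_of_tame _ h 1 ψ) φ
  · simp
  · have : i = 0 := by omega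
    subst this
    simpa using ha
  · rw [Finset.sum_range_one, hg1 k 0 (by norm_num)]
    simp
  · simp
  · constructor
    · intro hx
      exact ⟨x, hx, 0, (val_iff _).2 (D_zero 0), by simp⟩
    · rintro ⟨r, hr, z, _, h1⟩
      rw [h1, zero_mul, add_zero]
      exact hr

/-- expansions by open subrings of closed subfields of finite degree -/
theorem tame_open (C : Subring (LaurentSeries (ZMod p))) (L : Subfield (LaurentSeries (ZMod p)))
    (hCL : OpenIn C L) (hx : ∃ x ∈ C, x ≠ 0 ∧ x ∈ D p 1) (h : Tame p (ValRing p)) :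
    Tame p (C : Set (LaurentSeries (ZMod p))) := by
  classical
  obtain ⟨x₀, hx₀, hx₀0, hx₀1⟩ := hx
  obtain ⟨e, τ, he, hrange, hord, hd, hu⟩ := exists_dat L hCL.closed
    ⟨x₀, hCL.sub _ hx₀, hx₀0, hx₀1⟩
  choose c hc using hd
  have hmain : ∀ (g : ℕ → LaurentSeries (ZMod p)),
      (∀ k l, l < e → g (3 * e * k + (e + l)) = c (tt p ^ k) l) →
      (∀ i, Rep (ValRing p) (Gd e g) (fun w => w i ∈ {x | τ x ∈ C})) →
      Tame p (C : Set (LaurentSeries (ZMod p))) := by
    intro g hg hrep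
    refine tame_of_uniform p _ fun φ => ?_
    refine transfer (O := ValRing p) (e := e) (τ := τ) (t := tt p) he (fun y => ⟨c y, hc y⟩)
      hu g (fun k => ?_) C {x | τ x ∈ C} (fun y => ?_) hrep (fun ψ => ds_of_tame _ h e ψ) φ
    · conv_lhs => rw [hc (tt p ^ k)]
      refine Finset.sum_congr rfl fun l hl => ?_
      rw [hg k l (Finset.mem_range.1 hl)]
    · constructor
      · intro hy
        obtain ⟨x, rfl⟩ := (hrange y).1 (hCL.sub y hy)
        exact ⟨x, hy, rfl⟩
      · rintro ⟨x, hx, rfl⟩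
        exact hx
  rcases hCL.alt with halt | halt
  · obtain ⟨g, hg1, _⟩ := exists_g (ValRing p) e he (fun k l => c (tt p ^ k) l) (fun _ => 0)
    refine hmain g hg1 fun i => Rep.true.congr fun w _ => ?_
    simp only [Set.mem_setOf_eq, iff_true]
    exact halt _ ((hrange _).2 ⟨_, rfl⟩)
  · obtain ⟨N, hN⟩ := hCL.isOpen
    set M := N.natAbs with hM
    have hDM : ∀ x ∈ D p M, τ x ∈ C := by
      intro x hx
      rcases eq_or_ne x 0 with rfl | hx0
      · rw [map_zero]
        exact C.zero_mem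
      · refine hN _ ((hrange _).2 ⟨_, rfl⟩) ?_
        rw [mem_D_iff ((map_ne_zero τ).2 hx0), hord x hx0]
        have h1 := (mem_D_iff hx0).1 hx
        have h2 : (1 : ℤ) * x.order ≤ e * x.order :=
          mul_le_mul_of_nonneg_right (by exact_mod_cast he) (by omega)
        omega
    have hC0 : ∀ x, τ x ∈ C → x ∈ D p 0 := by
      intro x hx
      rcases eq_or_ne x 0 with rfl | hx0
      · exact D_zero 0
      · have h1 := halt _ hx
        rw [mem_D_iff ((map_ne_zero τ).2 hx0), hord x hx0] at h1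
        rw [mem_D_iff hx0]
        by_contra hcon
        push Not at hcon
        have h2 : (e : ℤ) * x.order < 0 := mul_neg_of_pos_of_neg (by exact_mod_cast he) hcon
        omega
    set T : Set (LaurentSeries (ZMod p)) := {r | r ∈ Set.range (fun f : Fin M → ZMod p =>
      ∑ i : Fin M, (((f i).val : ℕ) : LaurentSeries (ZMod p)) * tt p ^ (i : ℕ)) ∧ τ r ∈ C} with hT
    have hTfin : T.Finite := (Set.finite_range _).subset fun r hr => hr.1
    have hlow : ∀ x : LaurentSeries (ZMod p), low M x ∈ Set.range (fun f : Fin M → ZMod p =>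
        ∑ i : Fin M, (((f i).val : ℕ) : LaurentSeries (ZMod p)) * tt p ^ (i : ℕ)) := by
      intro x
      refine ⟨fun i => x.coeff ((i : ℕ) : ℤ), ?_⟩
      show (∑ i : Fin M, (((x.coeff ((i : ℕ) : ℤ)).val : ℕ) : LaurentSeries (ZMod p)) *
        tt p ^ (i : ℕ)) = _
      rw [low]
      exact Fin.sum_univ_eq_sum_range
        (fun i => (((x.coeff (i : ℤ)).val : ℕ) : LaurentSeries (ZMod p)) * tt p ^ i) M
    obtain ⟨g, hg1, hg2⟩ := rep_T (O := ValRing p) he T hTfin (tt p ^ M)
      (fun k l => c (tt p ^ k) l)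
    refine hmain g hg1 (hg2 _ fun x => ?_)
    constructor
    · intro hx
      have hx0 := hC0 x hx
      have h1 := sub_low M hx0
      refine ⟨low M x, ⟨hlow x, ?_⟩, (tt p ^ M)⁻¹ * (x - low M x), ?_, ?_⟩
      · have h2 := hDM _ h1
        have h3 : τ (low M x) = τ x - τ (x - low M x) := by
          rw [map_sub]
          ring
        rw [h3]
        exact C.sub_mem hx h2
      · rw [val_iff]
        have h2 := inv_mem (pow_ne_zero M (tt_ne_zero (p := p)))
        rw [tt_order] at h2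
        have h3 := D_mul h2 h1
        rwa [neg_add_cancel] at h3
      · rw [← mul_assoc, mul_inv_cancel₀ (pow_ne_zero M tt_ne_zero), one_mul]
        ring
    · rintro ⟨r, ⟨_, hr⟩, z, hz, h1⟩
      show τ x ∈ C
      rw [h1, map_add]
      refine C.add_mem hr (hDM _ ?_)
      have h2 := D_mul (tt_mem (p := p) M) ((val_iff z).1 hz)
      rwa [add_zero] at h2

end Pool.Agent.U853.SR
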