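import Pool.Agent.U853.SR.Dec

set_option autoImplicit false

namespace Pool.Agent.U853.SR

open Finset

variable {p : ℕ} [Fact p.Prime]

theorem sum_order' {e : ℕ} (τ : LaurentSeries (ZMod p) →+* LaurentSeries (ZMod p))
    (hord : ∀ x : LaurentSeries (ZMod p), x ≠ 0 → (τ x).order = e * x.order)
    (z : ℕ → LaurentSeries (ZMod p)) (hz : ∀ i < e, z i ≠ 0 ∧ (z i).order % e = i) (S : Finset ℕ)
    (hS : ∀ i ∈ S, i < e) (a : ℕ → LaurentSeries (ZMod p)) (h : ∃ i ∈ S, a i ≠ 0) :
    (∑ i ∈ S, τ (a i) * z i) ≠ 0 ∧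
      ∃ i ∈ S, a i ≠ 0 ∧ (∑ i ∈ S, τ (a i) * z i).order = e * (a i).order + (z i).order := by
  classical
  set S' := S.filter fun i => a i ≠ 0 with hS'
  have hne : S'.Nonempty := by
    obtain ⟨i, hi, h1⟩ := h
    exact ⟨i, Finset.mem_filter.2 ⟨hi, h1⟩⟩
  obtain ⟨i₀, hi₀, hmin⟩ := Finset.exists_min_image S'
    (fun i => (e : ℤ) * (a i).order + (z i).order) hne
  obtain ⟨hi₀S, ha₀⟩ := Finset.mem_filter.1 hi₀
  set n : ℤ := e * (a i₀).order + (z i₀).order with hn
  have hterm : ∀ i ∈ S, a i ≠ 0 → (τ (a i) * z i).order = e * (a i).order + (z i).order := by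
    intro i hiS hi
    rw [HahnSeries.order_mul ((map_ne_zero τ).2 hi) (hz i (hS i hiS)).1, hord _ hi]
  have hterm0 : ∀ i ∈ S, a i ≠ 0 → τ (a i) * z i ≠ 0 := fun i hiS hi =>
    mul_ne_zero ((map_ne_zero τ).2 hi) (hz i (hS i hiS)).1
  have hgt : ∀ i ∈ S, i ≠ i₀ → a i ≠ 0 → n < e * (a i).order + (z i).order := by
    intro i hi hne' hai
    refine lt_of_le_of_ne (hmin i (Finset.mem_filter.2 ⟨hi, hai⟩)) fun h1 => hne' ?_
    have h2 : ((e : ℤ) * (a i).order + (z i).order) % e = i := by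
      rw [add_comm, Int.add_mul_emod_self_left]
      exact (hz i (hS i hi)).2
    have h3 : ((e : ℤ) * (a i₀).order + (z i₀).order) % e = i₀ := by
      rw [add_comm, Int.add_mul_emod_self_left]
      exact (hz i₀ (hS i₀ hi₀S)).2
    rw [hn] at h1
    rw [← h1, h3] at h2
    exact_mod_cast h2.symm
  have hcoef : (∑ i ∈ S, τ (a i) * z i).coeff n ≠ 0 := by
    rw [HahnSeries.coeff_sum, Finset.sum_eq_single_of_mem i₀ hi₀S]
    · rw [hn, ← hterm i₀ hi₀S ha₀]
      exact HahnSeries.coeff_order_eq_zero.not.2 (hterm0 i₀ hi₀S ha₀)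
    · intro i hi hne'
      rcases eq_or_ne (a i) 0 with h0 | h0
      · rw [h0, map_zero, zero_mul]
        rfl
      · refine HahnSeries.coeff_eq_zero_of_lt_order ?_
        rw [hterm i hi h0]
        exact hgt i hi hne' h0
  have hne0 : (∑ i ∈ S, τ (a i) * z i) ≠ 0 := by
    intro h0
    rw [h0] at hcoef
    exact hcoef rfl
  refine ⟨hne0, i₀, hi₀S, ha₀, le_antisymm (HahnSeries.order_le_of_coeff_ne_zero hcoef) ?_⟩
  rw [← mem_D_iff hne0]
  have : ∀ T : Finset ℕ, T ⊆ S → (∑ i ∈ T, τ (a i) * z i) ∈ D p n := by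
    intro T
    induction T using Finset.induction_on with
    | empty => exact fun _ => by simpa using D_zero n
    | insert b T hb ih =>
      intro hT
      rw [Finset.sum_insert hb]
      refine D_add ?_ (ih fun i hi => hT (Finset.mem_insert_of_mem hi))
      have hbS := hT (Finset.mem_insert_self b T)
      rcases eq_or_ne (a b) 0 with h0 | h0
      · rw [h0, map_zero, zero_mul]
        exact D_zero n
      · rw [mem_D_iff (hterm0 b hbS h0), hterm b hbS h0]
        exact hmin b (Finset.mem_filter.2 ⟨hbS, h0⟩)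
  exact this S subset_rfl

/-- elements with different orders modulo `e` form a basis -/
theorem span_z {e : ℕ} (τ : LaurentSeries (ZMod p) →+* LaurentSeries (ZMod p))
    (hord : ∀ x : LaurentSeries (ZMod p), x ≠ 0 → (τ x).order = e * x.order)
    (hd : ∀ y, ∃ a : ℕ → LaurentSeries (ZMod p), y = ∑ i ∈ range e, τ (a i) * tt p ^ i)
    (z : ℕ → LaurentSeries (ZMod p)) (hz : ∀ i < e, z i ≠ 0 ∧ (z i).order % e = i)
    (y : LaurentSeries (ZMod p)) :
    ∃ a : ℕ → LaurentSeries (ZMod p), y = ∑ i ∈ range e, τ (a i) * z i := by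
  classical
  let L : Subfield (LaurentSeries (ZMod p)) := τ.fieldRange
  have hL : ∀ x, τ x ∈ L := fun x => ⟨x, rfl⟩
  have hspan : Submodule.span L (Set.range fun i : Fin e => tt p ^ (i : ℕ)) = ⊤ := by
    rw [eq_top_iff]
    intro y _
    obtain ⟨a, ha⟩ := hd y
    rw [ha, ← Fin.sum_univ_eq_sum_range (fun i => τ (a i) * tt p ^ i)]
    refine Submodule.sum_mem _ fun i _ => ?_
    have h1 : τ (a i) * tt p ^ (i : ℕ) = (⟨τ (a i), hL _⟩ : L) • (tt p ^ (i : ℕ)) := rfl
    rw [h1]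
    exact Submodule.smul_mem _ _ (Submodule.subset_span ⟨i, rfl⟩)
  have hfin : Module.Finite L (LaurentSeries (ZMod p)) :=
    ⟨⟨Finset.univ.image fun i : Fin e => tt p ^ (i : ℕ), by simpa using hspan⟩⟩
  have hle : Module.finrank L (LaurentSeries (ZMod p)) ≤ e := by
    have h1 := finrank_range_le_card (R := L) (fun i : Fin e => tt p ^ (i : ℕ))
    rw [Set.finrank, hspan, finrank_top, Fintype.card_fin] at h1
    exact h1
  have hli : LinearIndependent L (fun i : Fin e => z i) := by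
    rw [Fintype.linearIndependent_iff]
    intro g hg i
    have hex : ∀ j : ℕ, ∃ x, ∀ h : j < e, τ x = (g ⟨j, h⟩ : LaurentSeries (ZMod p)) := by
      intro j
      by_cases h : j < e
      · obtain ⟨x, hx⟩ := (g ⟨j, h⟩).2
        exact ⟨x, fun _ => hx⟩
      · exact ⟨0, fun h' => absurd h' h⟩
    choose a ha using hex
    by_contra hne
    have h2 : a i ≠ 0 := by
      intro h0
      apply hne
      have := ha i i.2
      rw [h0, map_zero] at this
      exact Subtype.ext this.symm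
    refine (sum_order' τ hord z hz (range e) (fun i hi => Finset.mem_range.1 hi) a
      ⟨i, Finset.mem_range.2 i.2, h2⟩).1 ?_
    rw [← Fin.sum_univ_eq_sum_range (fun i => τ (a i) * z i), ← hg]
    refine Finset.sum_congr rfl fun j _ => ?_
    rw [ha j j.2]
    rfl
  have hge := hli.fintype_card_le_finrank
  rw [Fintype.card_fin] at hge
  have htop := hli.span_eq_top_of_card_eq_finrank' (by rw [Fintype.card_fin]; omega)
  have hy : y ∈ Submodule.span L (Set.range fun i : Fin e => z i) := by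
    rw [htop]
    trivial
  obtain ⟨c, hc⟩ := (Submodule.mem_span_range_iff_exists_fun L).1 hy
  have hex : ∀ j : ℕ, ∃ x, ∀ h : j < e, τ x = (c ⟨j, h⟩ : LaurentSeries (ZMod p)) := by
    intro j
    by_cases h : j < e
    · obtain ⟨x, hx⟩ := (c ⟨j, h⟩).2
      exact ⟨x, fun _ => hx⟩
    · exact ⟨0, fun h' => absurd h' h⟩
  choose a ha using hex
  refine ⟨a, ?_⟩
  rw [← Fin.sum_univ_eq_sum_range (fun i => τ (a i) * z i), ← hc]
  refine Finset.sum_congr rfl fun j _ => ?_
  rw [ha j j.2]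
  rfl

/-- a limit point of a sequence of series of order at least `0` -/
theorem exists_limit (y : ℕ → LaurentSeries (ZMod p)) (hy : ∀ n, y n ∈ D p 0) :
    ∃ x : LaurentSeries (ZMod p), ∀ N M : ℕ, ∃ n ≥ M, x - y n ∈ D p N := by
  classical
  letI : TopologicalSpace (ZMod p) := ⊥
  haveI : DiscreteTopology (ZMod p) := ⟨rfl⟩
  haveI : Finite (ZMod p) := inferInstance
  obtain ⟨f, φ, hφ, hlim⟩ := CompactSpace.tendsto_subseq
    (fun n => fun k : ℕ => (y n).coeff (k : ℤ))
  refine ⟨HahnSeries.ofPowerSeries ℤ (ZMod p) (PowerSeries.mk f), fun N M => ?_⟩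
  have h1 : ∀ k : ℕ, ∀ᶠ n in Filter.atTop, (y (φ n)).coeff (k : ℤ) = f k := by
    intro k
    have h2 := (tendsto_pi_nhds.1 hlim) k
    rw [nhds_discrete] at h2
    exact Filter.tendsto_pure.1 h2
  have h3 : ∀ᶠ n in Filter.atTop, ∀ k ∈ range N, (y (φ n)).coeff (k : ℤ) = f k :=
    (Filter.eventually_all_finset (range N)).2 fun k _ => h1 k
  obtain ⟨n, hn, hnM⟩ := (h3.and (Filter.eventually_ge_atTop M)).exists
  refine ⟨φ n, le_trans hnM (hφ.id_le n), fun k hk => ?_⟩
  rw [HahnSeries.coeff_sub]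
  rcases lt_or_ge k 0 with h | h
  · rw [ofPS_mem _ k h, hy _ k h, sub_zero]
  · obtain ⟨m, rfl⟩ := Int.eq_ofNat_of_zero_le h
    rw [ofPS_coeff, PowerSeries.coeff_mk, hn m (Finset.mem_range.2 (by omega)), sub_self]

end Pool.Agent.U853.SR
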