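import Pool.Agent.U853.SR.Mod

set_option autoImplicit false

namespace Pool.Agent.U853.SR

open Finset

variable {p : ℕ} [Fact p.Prime]

/-- the hypotheses on the closed group `V`, the multiplier `s` and the substitution `τ` -/
structure Hyp (V : AddSubgroup (LaurentSeries (ZMod p))) (s : LaurentSeries (ZMod p)) (e : ℕ)
    (τ : LaurentSeries (ZMod p) →+* LaurentSeries (ZMod p)) : Prop where
  hV : Cl (V : Set (LaurentSeries (ZMod p))) ⊆ (V : Set (LaurentSeries (ZMod p)))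
  hs0 : s ≠ 0
  hse : s.order = e
  he : 1 ≤ e
  hsV : ∀ x ∈ V, s * x ∈ V
  hτ : τ (tt p) = s
  hord : ∀ x : LaurentSeries (ZMod p), x ≠ 0 → (τ x).order = e * x.order
  h3 : ∀ (f : ℕ → ZMod p) (N : ℕ), τ (HahnSeries.ofPowerSeries ℤ (ZMod p) (PowerSeries.mk f)) -
    ∑ n ∈ range N, (((f n).val : ℕ) : LaurentSeries (ZMod p)) * s ^ n ∈ D p N

variable {V : AddSubgroup (LaurentSeries (ZMod p))} {s : LaurentSeries (ZMod p)} {e : ℕ}
  {τ : LaurentSeries (ZMod p) →+* LaurentSeries (ZMod p)}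

lemma Hyp.pow_mem (H : Hyp V s e τ) (n : ℕ) {x : LaurentSeries (ZMod p)} (hx : x ∈ V) :
    s ^ n * x ∈ V := by
  induction n with
  | zero => simpa using hx
  | succ n ih =>
    rw [pow_succ', mul_assoc]
    exact H.hsV _ ih

lemma Hyp.O_mul (H : Hyp V s e τ) {a x : LaurentSeries (ZMod p)} (ha : a ∈ D p 0) (hx : x ∈ V) :
    τ a * x ∈ V := by
  refine H.hV fun N => ?_
  obtain ⟨m, hm⟩ := exists_low x
  set M := (N + m).toNat with hM
  refine ⟨(∑ n ∈ range M, (((a.coeff (n : ℤ)).val : ℕ) : LaurentSeries (ZMod p)) * s ^ n) * x,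
    ?_, ?_⟩
  · rw [Finset.sum_mul]
    refine V.sum_mem fun n _ => ?_
    rw [mul_assoc, ← nsmul_eq_mul]
    exact V.nsmul_mem (H.pow_mem n hx) _
  · have h1 := H.h3 (fun n => a.coeff (n : ℤ)) M
    rw [ofPS_mk ha] at h1
    rw [← sub_mul]
    exact D_mono (by omega) (D_mul h1 hm)

lemma Hyp.order_pow (H : Hyp V s e τ) (n : ℕ) : (s ^ n).order = e * n := by
  rw [HahnSeries.order_pow, H.hse, nsmul_eq_mul, mul_comm]

lemma Hyp.inf_class (H : Hyp V s e τ) {i : ℕ} (hi : i < e)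
    (h : ∀ N : ℤ, ∃ x ∈ V, x ≠ 0 ∧ x.order % e = i ∧ x.order < N) :
    ∃ z : LaurentSeries (ZMod p), z ≠ 0 ∧ z.order % e = i ∧ ∀ a, τ a * z ∈ V := by
  have he := H.he
  have h1 : ∀ N : ℕ, ∃ (x : LaurentSeries (ZMod p)) (k : ℕ), x ∈ V ∧ x ≠ 0 ∧
      x.order = i - e * k ∧ N ≤ k := by
    intro N
    obtain ⟨x, hx, hx0, h2, h3⟩ := h (-(e * N))
    have h4 : x.order = e * (x.order / e) + i := by
      rw [← h2]
      exact (Int.mul_ediv_add_emod _ _).symm
    have h5 : (e : ℤ) * (x.order / e) < e * (-N) := by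
      have : (e : ℤ) * (-N) = -(e * N) := by ring
      rw [this]
      omega
    have h6 : x.order / e < -N := lt_of_mul_lt_mul_left h5 (by omega)
    refine ⟨x, (-(x.order / e)).toNat, hx, hx0, ?_, by omega⟩
    have h7 : (((-(x.order / e)).toNat : ℕ) : ℤ) = -(x.order / e) := by omega
    rw [h7, mul_neg, sub_neg_eq_add]
    linarith
  choose x k hx hx0 hxo hk using h1
  have hyo : ∀ N, (s ^ k N * x N).order = i := by
    intro N
    rw [HahnSeries.order_mul (pow_ne_zero _ H.hs0) (hx0 N), H.order_pow, hxo]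
    ring
  have hy0 : ∀ N, s ^ k N * x N ≠ 0 := fun N => mul_ne_zero (pow_ne_zero _ H.hs0) (hx0 N)
  obtain ⟨z, hz⟩ := exists_limit (fun N => s ^ k N * x N) fun N => by
    rw [mem_D_iff (hy0 N), hyo]
    omega
  have hzc : z.coeff (i : ℤ) ≠ 0 := by
    obtain ⟨n, _, h2⟩ := hz (i + 1) 0
    have h3 := h2 (i : ℤ) (by push_cast; omega)
    rw [HahnSeries.coeff_sub, sub_eq_zero] at h3
    rw [h3]
    have h4 := HahnSeries.coeff_order_eq_zero.not.2 (hy0 n)
    rwa [hyo] at h4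
  have hz0 : z ≠ 0 := by
    rintro rfl
    exact hzc rfl
  have hzo : z.order = i := by
    refine le_antisymm (HahnSeries.order_le_of_coeff_ne_zero hzc) ?_
    rw [← mem_D_iff hz0]
    obtain ⟨n, _, h2⟩ := hz i 0
    have h3 : s ^ k n * x n ∈ D p i := by
      rw [mem_D_iff (hy0 n), hyo]
    have h4 := D_add h2 h3
    rwa [sub_add_cancel] at h4
  have hneg : ∀ m : ℕ, (s ^ m)⁻¹ * z ∈ V := by
    intro m
    refine H.hV fun N => ?_
    obtain ⟨n, hn, h2⟩ := hz (N + e * m).toNat m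
    refine ⟨(s ^ m)⁻¹ * (s ^ k n * x n), ?_, ?_⟩
    · obtain ⟨j, hj⟩ := Nat.exists_eq_add_of_le (hn.trans (hk n))
      rw [hj, pow_add, ← mul_assoc, ← mul_assoc, inv_mul_cancel₀ (pow_ne_zero m H.hs0), one_mul]
      exact H.pow_mem j (hx n)
    · rw [← mul_sub]
      have h4 := inv_mem (pow_ne_zero m H.hs0)
      rw [H.order_pow] at h4
      exact D_mono (by omega) (D_mul h4 h2)
  refine ⟨z, hz0, ?_, fun a => ?_⟩
  · rw [hzo]
    exact Int.emod_eq_of_lt (by omega) (by exact_mod_cast hi)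
  · obtain ⟨m, hm⟩ := exists_low a
    have h2 := D_mul (tt_mem (p := p) m) hm
    rw [add_neg_cancel] at h2
    have h4 := H.O_mul h2 (hneg m)
    rw [map_mul, map_pow, H.hτ] at h4
    have h5 : s ^ m * τ a * ((s ^ m)⁻¹ * z) = τ a * z := by
      have h6 : s ^ m * τ a * ((s ^ m)⁻¹ * z) = (s ^ m * (s ^ m)⁻¹) * (τ a * z) := by ring
      rw [h6, mul_inv_cancel₀ (pow_ne_zero m H.hs0), one_mul]
    rwa [h5] at h4

/-- the three kinds of classes -/
def Cls (V : AddSubgroup (LaurentSeries (ZMod p))) (e : ℕ)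
    (τ : LaurentSeries (ZMod p) →+* LaurentSeries (ZMod p)) (i : ℕ) (z : LaurentSeries (ZMod p))
    (ty : ℕ) : Prop :=
  (ty = 0 ∧ ∀ x ∈ V, x ≠ 0 → x.order % e ≠ i) ∨
    (ty = 1 ∧ z ∈ V ∧ ∀ x ∈ V, x ≠ 0 → x.order % e = i → z.order ≤ x.order) ∨
    (ty = 2 ∧ ∀ a, τ a * z ∈ V)

lemma Hyp.cls (H : Hyp V s e τ) {i : ℕ} (hi : i < e) :
    ∃ (z : LaurentSeries (ZMod p)) (ty : ℕ), z ≠ 0 ∧ z.order % e = i ∧ Cls V e τ i z ty := by
  classical
  have he := H.he
  by_cases h : ∃ x ∈ V, x ≠ 0 ∧ x.order % e = i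
  · by_cases h' : ∀ N : ℤ, ∃ x ∈ V, x ≠ 0 ∧ x.order % e = i ∧ x.order < N
    · obtain ⟨z, hz0, hzo, h1⟩ := H.inf_class hi h'
      exact ⟨z, 2, hz0, hzo, Or.inr (Or.inr ⟨rfl, h1⟩)⟩
    · push Not at h'
      obtain ⟨N, hN⟩ := h'
      have hex : ∃ n : ℕ, ∃ x ∈ V, x ≠ 0 ∧ x.order % e = i ∧ x.order = N + n := by
        obtain ⟨x, hx, hx0, hxi⟩ := h
        have := hN x hx hx0 hxi
        exact ⟨(x.order - N).toNat, x, hx, hx0, hxi, by omega⟩
      obtain ⟨z, hz, hz0, hzi, hzo⟩ := Nat.find_spec hex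
      refine ⟨z, 1, hz0, hzi, Or.inr (Or.inl ⟨rfl, hz, fun x hx hx0 hxi => ?_⟩)⟩
      have h1 := hN x hx hx0 hxi
      have h2 : Nat.find hex ≤ (x.order - N).toNat :=
        Nat.find_min' hex ⟨x, hx, hx0, hxi, by omega⟩
      omega
  · push Not at h
    refine ⟨tt p ^ i, 0, pow_ne_zero i tt_ne_zero, ?_, Or.inl ⟨rfl, fun x hx hx0 => h x hx hx0⟩⟩
    rw [tt_order]
    exact Int.emod_eq_of_lt (by omega) (by exact_mod_cast hi)

lemma split_coeff (a : LaurentSeries (ZMod p)) : ∃ b ∈ D p 0, a - b ≠ 0 → (a - b).order < 0 := by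
  refine ⟨HahnSeries.ofPowerSeries ℤ (ZMod p) (PowerSeries.mk fun n => a.coeff (n : ℤ)),
    ofPS_mem _, fun h => ?_⟩
  by_contra hcon
  push Not at hcon
  apply h
  ext k
  rcases lt_or_ge k 0 with h1 | h1
  · exact HahnSeries.coeff_eq_zero_of_lt_order (lt_of_lt_of_le h1 hcon)
  · obtain ⟨m, rfl⟩ := Int.eq_ofNat_of_zero_le h1
    rw [HahnSeries.coeff_sub, ofPS_coeff, PowerSeries.coeff_mk, sub_self]
    rfl

theorem Hyp.struct (H : Hyp V s e τ)
    (hd : ∀ y, ∃ a : ℕ → LaurentSeries (ZMod p), y = ∑ i ∈ range e, τ (a i) * tt p ^ i) :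
    ∃ (z : ℕ → LaurentSeries (ZMod p)) (ty : ℕ → ℕ), ∀ x, x ∈ V ↔
      ∃ c : ℕ → LaurentSeries (ZMod p), x = ∑ i ∈ range e, τ (c i) * z i ∧
        ∀ i ∈ range e, (ty i = 0 → c i = 0) ∧ (ty i = 1 → c i ∈ D p 0) := by
  classical
  have hex : ∀ i : ℕ, ∃ (z : LaurentSeries (ZMod p)) (ty : ℕ), i < e →
      z ≠ 0 ∧ z.order % e = i ∧ Cls V e τ i z ty := by
    intro i
    by_cases hi : i < e
    · obtain ⟨z, ty, h⟩ := H.cls hi
      exact ⟨z, ty, fun _ => h⟩
    · exact ⟨0, 0, fun h => absurd h hi⟩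
  choose z ty hz using hex
  have hz' : ∀ i < e, z i ≠ 0 ∧ (z i).order % e = i := fun i hi => ⟨(hz i hi).1, (hz i hi).2.1⟩
  have hsum : ∀ c : ℕ → LaurentSeries (ZMod p),
      (∀ i ∈ range e, (ty i = 0 → c i = 0) ∧ (ty i = 1 → c i ∈ D p 0)) →
      ∑ i ∈ range e, τ (c i) * z i ∈ V := by
    intro c hc
    refine V.sum_mem fun i hi => ?_
    have hie := Finset.mem_range.1 hi
    rcases (hz i hie).2.2 with ⟨h1, _⟩ | ⟨h1, h2, _⟩ | ⟨_, h2⟩
    · rw [(hc i hi).1 h1, map_zero, zero_mul]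
      exact V.zero_mem
    · exact H.O_mul ((hc i hi).2 h1) h2
    · exact h2 _
  refine ⟨z, ty, fun x => ⟨fun hx => ?_, ?_⟩⟩
  · obtain ⟨a, ha⟩ := span_z τ H.hord hd z hz' x
    choose b hb0 hb using fun i => split_coeff (a i)
    let c : ℕ → LaurentSeries (ZMod p) := fun i =>
      if ty i = 0 then 0 else if ty i = 1 then b i else a i
    have hc : ∀ i ∈ range e, (ty i = 0 → c i = 0) ∧ (ty i = 1 → c i ∈ D p 0) := by
      intro i _
      refine ⟨fun h => if_pos h, fun h => ?_⟩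
      show (if ty i = 0 then 0 else if ty i = 1 then b i else a i) ∈ D p 0
      rw [if_neg (by omega), if_pos h]
      exact hb0 i
    have hall : ∀ i ∈ range e, a i - c i = 0 := by
      by_contra hcon
      push Not at hcon
      obtain ⟨h1, i, hi, hai, h2⟩ := sum_order' τ H.hord z hz' (range e)
        (fun i hi => Finset.mem_range.1 hi) (fun i => a i - c i) hcon
      have h4 : (∑ i ∈ range e, τ (a i - c i) * z i) ∈ V := by
        have h5 : (∑ i ∈ range e, τ (a i - c i) * z i) = x - ∑ i ∈ range e, τ (c i) * z i := by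
          rw [ha, ← Finset.sum_sub_distrib]
          refine Finset.sum_congr rfl fun i _ => ?_
          rw [map_sub]
          ring
        rw [h5]
        exact V.sub_mem hx (hsum c hc)
      have hie := Finset.mem_range.1 hi
      have h6 : (∑ i ∈ range e, τ (a i - c i) * z i).order % e = i := by
        rw [h2, add_comm, Int.add_mul_emod_self_left]
        exact (hz' i hie).2
      rcases (hz i hie).2.2 with ⟨_, h7⟩ | ⟨h8, _, h7⟩ | ⟨h8, _⟩
      · exact h7 _ h4 h1 h6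
      · have h9 := h7 _ h4 h1 h6
        rw [h2] at h9
        have hci : c i = b i := by
          show (if ty i = 0 then 0 else if ty i = 1 then b i else a i) = b i
          rw [if_neg (by omega), if_pos h8]
        simp only [hci] at h9 hai
        have h10 := hb i hai
        have h11 : (e : ℤ) * (a i - b i).order < 0 :=
          mul_neg_of_pos_of_neg (by exact_mod_cast H.he) h10
        omega
      · apply hai
        show a i - (if ty i = 0 then 0 else if ty i = 1 then b i else a i) = 0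
        rw [if_neg (by omega), if_neg (by omega), sub_self]
    refine ⟨c, ?_, hc⟩
    rw [ha]
    refine Finset.sum_congr rfl fun i hi => ?_
    rw [sub_eq_zero.1 (hall i hi)]
  · rintro ⟨c, rfl, hc⟩
    exact hsum c hc

end Pool.Agent.U853.SR
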