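import Pool.Agent.U853.SR.Fin

set_option autoImplicit false

namespace Pool.Agent.U853.SR

open Pool.Agent.Y924.EL Pool.Agent.R794.FP Function Finset

section

variable {K : Type*} [Field K]

variable {O : Set K} {e : ℕ} {τ : K →+* K} {t : K}

theorem tr2 (he : 1 ≤ e) (hd : ∀ y, ∃ a : ℕ → K, y = ∑ i ∈ range e, τ (a i) * t ^ i)
    (hu : ∀ a : ℕ → K, ∑ i ∈ range e, τ (a i) * t ^ i = 0 → ∀ i < e, a i = 0)
    (g : ℕ → K) (hg : ∀ k, t ^ k = ∑ l ∈ range e, τ (g (3 * e * k + (e + l))) * t ^ l)
    (C : Set K) (hC : ∀ i, Rep O (Gd e g) (fun w => dec e τ t w i ∈ C)) (φ : Fm) :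
    Rep O (Gd e g) (fun w => Sat C φ (dec e τ t w)) := by
  have hone : (1 : K) = ∑ l ∈ range e, τ (if l = 0 then 1 else 0) * t ^ l := by
    rw [Finset.sum_eq_single_of_mem 0 (Finset.mem_range.2 (by omega))]
    · simp
    · intro l _ hl
      simp [hl]
  induction φ with
  | eq i j =>
    refine (Rep.all (range e) (R := fun l w => w (3 * e * i + l) = w (3 * e * j + l))
      fun l _ => Rep.eq _ _).congr fun w _ => ?_
    exact uniq hu _ _
  | one i =>
    refine (Rep.all (range e) (R := fun l w => w (3 * e * i + l) = if l = 0 then 1 else 0)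
      fun l _ => ?_).congr fun w _ => ?_
    · by_cases hl : l = 0
      · simp only [hl, if_true]
        exact ((PF.one (K := K) (M := 0)).rep _).weaken
      · simp only [hl, if_false]
        exact ((PF.zero (K := K) (M := 0)).rep _).weaken
    · refine Iff.trans (b := dec e τ t w i =
        ∑ l ∈ range e, τ (if l = 0 then 1 else 0) * t ^ l) ?_ (uniq hu _ _)
      rw [← hone]
      exact Iff.rfl
  | add i j k =>
    refine (Rep.all (range e) (R := fun l w => w (3 * e * k + l) =
      w (3 * e * i + l) + w (3 * e * j + l)) fun l _ => ?_).congr fun w _ => ?_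
    · exact (((PF.var (K := K) (M := 3 * e * i + l + (3 * e * j + l) + 1) (3 * e * i + l)
        (by omega)).add (PF.var (3 * e * j + l) (by omega))).rep _).weaken
    · show dec e τ t w i + dec e τ t w j = dec e τ t w k ↔ _
      rw [eq_comm]
      have h1 : dec e τ t w i + dec e τ t w j =
          ∑ l ∈ range e, τ (w (3 * e * i + l) + w (3 * e * j + l)) * t ^ l := by
        simp only [map_add, add_mul, Finset.sum_add_distrib]
        rfl
      rw [h1]
      exact uniq hu _ _
  | mul i j k =>
    refine (Rep.all (range e) (R := fun l w => w (3 * e * k + l) =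
      ∑ a ∈ range e, ∑ b ∈ range e, w (3 * e * i + a) * w (3 * e * j + b) *
        w (3 * e * (a + b) + (e + l))) fun l hl => ?_).congr fun w hw => ?_
    · refine PF.rep (M := 3 * e * i + e + (3 * e * j + e) + (3 * e * (2 * e) + 2 * e)) ?_ _
        |>.weaken
      refine PF.sum _ fun a ha => PF.sum _ fun b hb => ?_
      rw [Finset.mem_range] at ha hb hl
      have h2 : 3 * e * (a + b) ≤ 3 * e * (2 * e) := Nat.mul_le_mul_left _ (by omega)
      exact ((PF.var _ (by omega)).mul (PF.var _ (by omega))).mul (PF.var _ (by omega))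
    · show dec e τ t w i * dec e τ t w j = dec e τ t w k ↔ _
      rw [eq_comm]
      have h1 : dec e τ t w i * dec e τ t w j =
          ∑ l ∈ range e, τ (∑ a ∈ range e, ∑ b ∈ range e, w (3 * e * i + a) *
            w (3 * e * j + b) * w (3 * e * (a + b) + (e + l))) * t ^ l := by
        unfold dec
        rw [Finset.sum_mul_sum]
        have h2 : ∀ a b, τ (w (3 * e * i + a)) * t ^ a * (τ (w (3 * e * j + b)) * t ^ b) =
            ∑ l ∈ range e, τ (w (3 * e * i + a) * w (3 * e * j + b) *
              w (3 * e * (a + b) + (e + l))) * t ^ l := by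
          intro a b
          have h3 : τ (w (3 * e * i + a)) * t ^ a * (τ (w (3 * e * j + b)) * t ^ b) =
              τ (w (3 * e * i + a) * w (3 * e * j + b)) * t ^ (a + b) := by
            rw [map_mul, pow_add]
            ring
          rw [h3, hg (a + b), Finset.mul_sum]
          refine Finset.sum_congr rfl fun l hl => ?_
          rw [Finset.mem_range] at hl
          rw [hw (3 * e * (a + b) + (e + l)) (by rw [enc_mod (by omega)]; omega), map_mul τ
            (w (3 * e * i + a) * w (3 * e * j + b))]
          ring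
        simp only [h2, map_sum, Finset.sum_mul]
        symm
        rw [Finset.sum_comm]
        refine Finset.sum_congr rfl fun a _ => ?_
        rw [Finset.sum_comm]
      rw [h1]
      exact uniq hu _ _
  | val i => exact hC i
  | neg φ ih => exact ih.not
  | and φ ψ ih1 ih2 => exact ih1.and ih2
  | ex i φ ih =>
    refine (Rep.exs (blk e i) (fun w f hw => gd_ovr g w f i hw) ih).congr fun w _ => ?_
    show (∃ x, Sat C φ (update (dec e τ t w) i x)) ↔ _
    simp only [dec_ovr]
    constructor
    · rintro ⟨x, hx⟩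
      obtain ⟨a, ha⟩ := hd x
      refine ⟨fun n => a (n - 3 * e * i), ?_⟩
      simp only [Nat.add_sub_cancel_left]
      rwa [← ha]
    · rintro ⟨f, hf⟩
      exact ⟨_, hf⟩

theorem transfer2 (he : 1 ≤ e) (hd : ∀ y, ∃ a : ℕ → K, y = ∑ i ∈ range e, τ (a i) * t ^ i)
    (hu : ∀ a : ℕ → K, ∑ i ∈ range e, τ (a i) * t ^ i = 0 → ∀ i < e, a i = 0)
    (g : ℕ → K) (hg : ∀ k, t ^ k = ∑ l ∈ range e, τ (g (3 * e * k + (e + l))) * t ^ l)
    (C : Set K) (hC : ∀ i, Rep O (Gd e g) (fun w => dec e τ t w i ∈ C))
    (H : ∀ ψ : Fm, ∃ N : ℕ, ∀ w : ℕ → K, (DS O ψ e w).Finite → (DS O ψ e w).ncard ≤ N)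
    (φ : Fm) : ∃ N : ℕ, ∀ v : ℕ → K, {x | Sat C φ (update v 0 x)}.Finite →
      {x | Sat C φ (update v 0 x)}.ncard ≤ N := by
  obtain ⟨ψ, hψ⟩ := tr2 he hd hu g hg C hC φ
  obtain ⟨N, hN⟩ := H ψ
  refine ⟨N, fun v => ?_⟩
  choose a ha using hd
  let w : ℕ → K := fun i => if i % (3 * e) < e then a (v (i / (3 * e))) (i % (3 * e)) else g i
  have hw : Gd e g w := fun i hi => if_neg (by omega)
  have hdw : dec e τ t w = v := by
    funext n
    rw [ha (v n)]
    refine Finset.sum_congr rfl fun l hl => ?_
    rw [Finset.mem_range] at hl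
    have h1 : w (3 * e * n + l) = a (v n) l := by
      show (if (3 * e * n + l) % (3 * e) < e then _ else _) = _
      rw [enc_mod (by omega), enc_div (by omega), if_pos hl]
    rw [h1]
  let F : (Fin e → K) → K := fun x => ∑ l ∈ range e, τ (if h : l < e then x ⟨l, h⟩ else 0) * t ^ l
  have hFinj : Injective F := by
    intro x y hxy
    have h1 := (uniq hu (fun l => if h : l < e then x ⟨l, h⟩ else 0)
      (fun l => if h : l < e then y ⟨l, h⟩ else 0)).1 hxy
    funext i
    have h2 := h1 i (Finset.mem_range.2 i.2)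
    simpa [i.2] using h2
  have hFsurj : Surjective F := by
    intro y
    refine ⟨fun i => a y i, ?_⟩
    rw [ha y]
    refine Finset.sum_congr rfl fun l hl => ?_
    rw [dif_pos (Finset.mem_range.1 hl), ← ha y]
  have key : ∀ x : Fin e → K, x ∈ DS O ψ e w ↔ F x ∈ {x | Sat C φ (update v 0 x)} := by
    intro x
    set w' : ℕ → K := fun i => if h : i < e then x ⟨i, h⟩ else w i with hw'
    have h1 : Gd e g w' := by
      intro i hi
      have h2 : i % (3 * e) ≤ i := Nat.mod_le _ _
      rw [hw']
      show (if h : i < e then x ⟨i, h⟩ else w i) = g i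
      rw [dif_neg (by omega)]
      exact hw i hi
    have h2 : dec e τ t w' = update v 0 (F x) := by
      funext n
      rcases eq_or_ne n 0 with rfl | hn
      · rw [update_self]
        refine Finset.sum_congr rfl fun l hl => ?_
        rw [Finset.mem_range] at hl
        have h3 : w' (3 * e * 0 + l) = if h : l < e then x ⟨l, h⟩ else 0 := by
          rw [mul_zero, zero_add, hw']
          show (if h : l < e then x ⟨l, h⟩ else w l) = _
          rw [dif_pos hl, dif_pos hl]
        rw [h3]
      · rw [update_of_ne hn, ← hdw]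
        refine Finset.sum_congr rfl fun l hl => ?_
        rw [Finset.mem_range] at hl
        have h4 : 3 * e * 1 ≤ 3 * e * n := Nat.mul_le_mul_left _ (by omega)
        have h3 : w' (3 * e * n + l) = w (3 * e * n + l) := by
          rw [hw']
          show (if h : 3 * e * n + l < e then _ else _) = _
          rw [dif_neg (by omega)]
        rw [h3]
    show Sat O ψ w' ↔ Sat C φ (update v 0 (F x))
    have h6 := hψ w' h1
    simp only [h2] at h6
    exact h6.symm
  have h5 : {x | Sat C φ (update v 0 x)} = F '' DS O ψ e w := by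
    ext y
    constructor
    · intro hy
      obtain ⟨x, rfl⟩ := hFsurj y
      exact ⟨x, (key x).2 hy, rfl⟩
    · rintro ⟨x, hx, rfl⟩
      exact (key x).1 hx
  intro hfin
  rw [h5, Set.ncard_image_of_injective _ hFinj]
  refine hN w ?_
  rw [h5] at hfin
  exact hfin.of_finite_image hFinj.injOn

end

end Pool.Agent.U853.SR
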