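import Pool.Agent.U853.SR.Exp
import Pool.Agent.U853.SR.Tr2
import Pool.Agent.U853.SR.Str

set_option autoImplicit false

namespace Pool.Agent.U853.SR

open Pool.Agent.Y924.EL Pool.Agent.R794.FP Function
open Pool.Agent.Results.MP_db9079_lc.UniformFiniteness
open Pool.Agent.Results.MP_db9079_lc.LocallyFiniteValues

variable {p : ℕ} [Fact p.Prime]

lemma Rep.imp_const {K : Type*} [Field K] {O : Set K} {G : (ℕ → K) → Prop} (q : Prop)
    {R : (ℕ → K) → Prop} (h : Rep O G R) : Rep O G (fun w => q → R w) := by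
  by_cases hq : q
  · exact h.congr fun w _ => by simp [hq]
  · exact Rep.true.congr fun w _ => by simp [hq]

/-- the relation that describes the group in coordinates -/
def RV (p : ℕ) [Fact p.Prime] (e n : ℕ) (ty : ℕ → ℕ) (w : ℕ → LaurentSeries (ZMod p)) : Prop :=
  (∀ l ∈ Finset.range e, w (3 * e * n + l) =
    ∑ i ∈ Finset.range e, w (3 * e * (n + 1) + i) * w (3 * e * (e * i + l) + 2 * e)) ∧
  ∀ i ∈ Finset.range e, (ty i = 0 → w (3 * e * (n + 1) + i) = 0) ∧
    (ty i = 1 → w (3 * e * (n + 1) + i) ∈ ValRing p)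

lemma rep_RV (e n : ℕ) (ty : ℕ → ℕ) (G : (ℕ → LaurentSeries (ZMod p)) → Prop) :
    Rep (ValRing p) G (RV p e n ty) := by
  refine Rep.and ?_ ?_
  · refine Rep.all (Finset.range e) (R := fun l w => w (3 * e * n + l) =
      ∑ i ∈ Finset.range e, w (3 * e * (n + 1) + i) * w (3 * e * (e * i + l) + 2 * e))
      fun l hl => Rep.weaken ?_
    refine PF.rep (M := 3 * e * (n + 1) + e + (3 * e * (e * e + e) + 2 * e) + 1) ?_ _
    refine PF.sum _ fun i hi => ?_
    rw [Finset.mem_range] at hi hl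
    have h2 : 3 * e * (e * i + l) ≤ 3 * e * (e * e + e) :=
      Nat.mul_le_mul_left _ (add_le_add (Nat.mul_le_mul_left _ hi.le) hl.le)
    exact (PF.var _ (by omega)).mul (PF.var _ (by omega))
  · refine Rep.all (Finset.range e) (R := fun i w =>
      (ty i = 0 → w (3 * e * (n + 1) + i) = 0) ∧
      (ty i = 1 → w (3 * e * (n + 1) + i) ∈ ValRing p)) fun i _ => Rep.and ?_ ?_
    · exact Rep.imp_const _ (((PF.zero (K := LaurentSeries (ZMod p)) (M := 0)).rep _).weaken)
    · exact Rep.imp_const _ ⟨.val _, fun _ _ => Iff.rfl⟩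

/-- expansions by closed groups with a topologically nilpotent multiplier -/
theorem tame_module (V : AddSubgroup (LaurentSeries (ZMod p)))
    (hV : Cl (V : Set (LaurentSeries (ZMod p))) ⊆ (V : Set (LaurentSeries (ZMod p))))
    (s : LaurentSeries (ZMod p)) (hs0 : s ≠ 0) (hs1 : s ∈ D p 1) (hsV : ∀ x ∈ V, s * x ∈ V)
    (h : Tame p (ValRing p)) : Tame p (V : Set (LaurentSeries (ZMod p))) := by
  classical
  obtain ⟨τ, hτt, hτO, hτ⟩ := exists_tau hs0 hs1
  have hso := (mem_D_iff hs0).1 hs1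
  obtain ⟨e, hse⟩ : ∃ e : ℕ, s.order = e := Int.eq_ofNat_of_zero_le (by omega)
  have he : 1 ≤ e := by omega
  have hord : ∀ x : LaurentSeries (ZMod p), x ≠ 0 → (τ x).order = e * x.order := fun x hx =>
    order_tau hs0 hse τ hτt hτO hx
  have hd := decomp hs0 hse he τ hτt hτ
  have hu : ∀ a : ℕ → LaurentSeries (ZMod p),
      ∑ i ∈ Finset.range e, τ (a i) * tt p ^ i = 0 → ∀ i < e, a i = 0 := by
    intro a ha i hi
    by_contra hne
    exact (sum_order τ hord (Finset.range e) (fun i hi => Finset.mem_range.1 hi) a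
      ⟨i, Finset.mem_range.2 hi, hne⟩).1 ha
  have H : Hyp V s e τ := ⟨hV, hs0, hse, he, hsV, hτt, hord, hτ⟩
  obtain ⟨z, ty, hst⟩ := H.struct hd
  choose c hc using hd
  obtain ⟨g, hg1, hg2⟩ := exists_g (ValRing p) e he (fun k l => c (tt p ^ k) l)
    (fun k => c (z (k / e)) (k % e))
  have hkey : ∀ c' : ℕ → LaurentSeries (ZMod p), ∑ i ∈ Finset.range e, τ (c' i) * z i =
      ∑ l ∈ Finset.range e, τ (∑ i ∈ Finset.range e, c' i * c (z i) l) * tt p ^ l := by
    intro c'
    simp only [map_sum, Finset.sum_mul]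
    rw [Finset.sum_comm]
    refine Finset.sum_congr rfl fun i _ => ?_
    conv_lhs => rw [hc (z i)]
    rw [Finset.mul_sum]
    refine Finset.sum_congr rfl fun l _ => ?_
    rw [map_mul]
    ring
  have hrep : ∀ n, Rep (ValRing p) (Gd e g)
      (fun w => dec e τ (tt p) w n ∈ (V : Set (LaurentSeries (ZMod p)))) := by
    intro n
    refine (Rep.exs (blk e (n + 1)) (fun w f hw => gd_ovr g w f (n + 1) hw)
      (rep_RV e n ty (Gd e g))).congr fun w hw => ?_
    have h1 : ∀ f : ℕ → LaurentSeries (ZMod p), ∀ l < e,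
        ovr w f (blk e (n + 1)) (3 * e * n + l) = w (3 * e * n + l) := by
      intro f l hl
      unfold ovr
      rw [if_neg]
      rw [mem_blk]
      rintro ⟨l', hl', h2⟩
      have := (enc_inj (by omega) (by omega) h2).1
      omega
    have h2 : ∀ f : ℕ → LaurentSeries (ZMod p), ∀ i < e,
        ovr w f (blk e (n + 1)) (3 * e * (n + 1) + i) = f (3 * e * (n + 1) + i) := by
      intro f i hi
      unfold ovr
      rw [if_pos (mem_blk.2 ⟨i, hi, rfl⟩)]
    have h3 : ∀ f : ℕ → LaurentSeries (ZMod p), ∀ i < e, ∀ l < e,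
        ovr w f (blk e (n + 1)) (3 * e * (e * i + l) + 2 * e) = c (z i) l := by
      intro f i hi l hl
      rw [gd_ovr g w f (n + 1) hw _ (by rw [enc_mod (by omega)]; omega), hg2]
      show c (z ((e * i + l) / e)) ((e * i + l) % e) = _
      rw [Nat.mul_add_div (by omega), Nat.div_eq_of_lt hl, add_zero, Nat.mul_add_mod,
        Nat.mod_eq_of_lt hl]
    have h4 : ∀ f : ℕ → LaurentSeries (ZMod p), RV p e n ty (ovr w f (blk e (n + 1))) ↔
        (∀ l ∈ Finset.range e, w (3 * e * n + l) =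
          ∑ i ∈ Finset.range e, f (3 * e * (n + 1) + i) * c (z i) l) ∧
        ∀ i ∈ Finset.range e, (ty i = 0 → f (3 * e * (n + 1) + i) = 0) ∧
          (ty i = 1 → f (3 * e * (n + 1) + i) ∈ D p 0) := by
      intro f
      unfold RV
      refine and_congr ?_ ?_
      · refine forall₂_congr fun l hl => ?_
        rw [h1 f l (Finset.mem_range.1 hl)]
        have h5 : ∑ i ∈ Finset.range e, ovr w f (blk e (n + 1)) (3 * e * (n + 1) + i) *
            ovr w f (blk e (n + 1)) (3 * e * (e * i + l) + 2 * e) =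
            ∑ i ∈ Finset.range e, f (3 * e * (n + 1) + i) * c (z i) l :=
          Finset.sum_congr rfl fun i hi => by
            rw [h2 f i (Finset.mem_range.1 hi), h3 f i (Finset.mem_range.1 hi) l
              (Finset.mem_range.1 hl)]
        rw [h5]
      · refine forall₂_congr fun i hi => ?_
        rw [h2 f i (Finset.mem_range.1 hi), val_iff]
    simp only [h4]
    show dec e τ (tt p) w n ∈ V ↔ _
    rw [hst]
    constructor
    · rintro ⟨c', h5, h6⟩
      rw [hkey] at h5
      have h7 := (uniq hu _ _).1 h5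
      refine ⟨fun j => c' (j - 3 * e * (n + 1)), ?_, ?_⟩
      · simp only [Nat.add_sub_cancel_left]
        exact h7
      · simp only [Nat.add_sub_cancel_left]
        exact h6
    · rintro ⟨f, h5, h6⟩
      refine ⟨fun i => f (3 * e * (n + 1) + i), ?_, h6⟩
      rw [hkey]
      exact (uniq hu _ _).2 h5
  refine tame_of_uniform p _ fun φ => ?_
  refine transfer2 (O := ValRing p) (e := e) (τ := τ) (t := tt p) he (fun y => ⟨c y, hc y⟩)
    hu g (fun k => ?_) V hrep (fun ψ => ds_of_tame _ h e ψ) φ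
  conv_lhs => rw [hc (tt p ^ k)]
  refine Finset.sum_congr rfl fun l hl => ?_
  rw [hg1 k l (Finset.mem_range.1 hl)]

end Pool.Agent.U853.SR
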