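import Pool.Agent.R794.FP.Many

set_option autoImplicit false

namespace Pool.Agent.U853.SR

open Pool.Agent.Y924.EL Pool.Agent.R794.FP Function

section

variable {K : Type*} [Field K] (O : Set K)

/-- the relation is defined by a formula, on the assignments with the property `G` -/
def Rep (G : (ℕ → K) → Prop) (R : (ℕ → K) → Prop) : Prop :=
  ∃ ψ : Fm, ∀ w, G w → (R w ↔ Sat O ψ w)

variable {O} {G : (ℕ → K) → Prop}

lemma Rep.congr {R R' : (ℕ → K) → Prop} (h : Rep O G R) (h' : ∀ w, G w → (R' w ↔ R w)) :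
    Rep O G R' := by
  obtain ⟨ψ, hψ⟩ := h
  exact ⟨ψ, fun w hw => (h' w hw).trans (hψ w hw)⟩

lemma Rep.weaken {R : (ℕ → K) → Prop} (h : Rep O (fun _ => True) R) : Rep O G R := by
  obtain ⟨ψ, hψ⟩ := h
  exact ⟨ψ, fun w _ => hψ w trivial⟩

lemma Rep.and {R R' : (ℕ → K) → Prop} (h : Rep O G R) (h' : Rep O G R') :
    Rep O G (fun w => R w ∧ R' w) := by
  obtain ⟨ψ, hψ⟩ := h
  obtain ⟨ψ', hψ'⟩ := h'
  exact ⟨.and ψ ψ', fun w hw => and_congr (hψ w hw) (hψ' w hw)⟩

lemma Rep.not {R : (ℕ → K) → Prop} (h : Rep O G R) : Rep O G (fun w => ¬ R w) := by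
  obtain ⟨ψ, hψ⟩ := h
  exact ⟨.neg ψ, fun w hw => not_congr (hψ w hw)⟩

lemma Rep.or {R R' : (ℕ → K) → Prop} (h : Rep O G R) (h' : Rep O G R') :
    Rep O G (fun w => R w ∨ R' w) :=
  (h.not.and h'.not).not.congr fun w _ => by tauto

lemma Rep.eq (i j : ℕ) : Rep O G (fun w => w i = w j) := ⟨.eq i j, fun _ _ => Iff.rfl⟩

lemma Rep.true : Rep O G (fun _ => True) := (Rep.eq 0 0).congr fun w _ => by simp

lemma Rep.false : Rep O G (fun _ => False) := Rep.true.not.congr fun w _ => by simp

lemma Rep.ex {R : (ℕ → K) → Prop} (k : ℕ) (hG : ∀ w x, G w → G (update w k x))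
    (h : Rep O G R) : Rep O G (fun w => ∃ x, R (update w k x)) := by
  obtain ⟨ψ, hψ⟩ := h
  exact ⟨.ex k ψ, fun w hw => exists_congr fun x => hψ _ (hG w x hw)⟩

lemma Rep.exs {R : (ℕ → K) → Prop} (l : List ℕ) (hG : ∀ w f, G w → G (ovr w f l))
    (h : Rep O G R) : Rep O G (fun w => ∃ f, R (ovr w f l)) := by
  obtain ⟨ψ, hψ⟩ := h
  exact ⟨Pool.Agent.R794.FP.exs l ψ, fun w hw => by
    rw [sat_exs]
    exact exists_congr fun f => hψ _ (hG w f hw)⟩

lemma Rep.all {ι : Type*} (s : Finset ι) {R : ι → (ℕ → K) → Prop}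
    (h : ∀ i ∈ s, Rep O G (R i)) : Rep O G (fun w => ∀ i ∈ s, R i w) := by
  classical
  induction s using Finset.induction_on with
  | empty => exact Rep.true.congr fun w _ => by simp
  | insert a s _ ih =>
    exact ((h a (Finset.mem_insert_self a s)).and
      (ih fun i hi => h i (Finset.mem_insert_of_mem hi))).congr fun w _ => by
        simp

lemma Rep.any {ι : Type*} (s : Finset ι) {R : ι → (ℕ → K) → Prop}
    (h : ∀ i ∈ s, Rep O G (R i)) : Rep O G (fun w => ∃ i ∈ s, R i w) :=
  (Rep.all s (R := fun i w => ¬ R i w) fun i hi => (h i hi).not).not.congr fun w _ => by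
    push Not
    rfl

/-- polynomial functions of the variables with the numbers below `M` -/
inductive PF (M : ℕ) : ((ℕ → K) → K) → Prop
  | var (i : ℕ) (h : i < M) : PF M (fun w => w i)
  | zero : PF M (fun _ => 0)
  | one : PF M (fun _ => 1)
  | add {f g : (ℕ → K) → K} : PF M f → PF M g → PF M (fun w => f w + g w)
  | mul {f g : (ℕ → K) → K} : PF M f → PF M g → PF M (fun w => f w * g w)

lemma PF.indep {M : ℕ} {f : (ℕ → K) → K} (h : PF M f) :
    ∀ w w' : ℕ → K, (∀ i < M, w i = w' i) → f w = f w' := by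
  induction h with
  | var i hi => exact fun w w' hw => hw i hi
  | zero => exact fun _ _ _ => rfl
  | one => exact fun _ _ _ => rfl
  | add _ _ h1 h2 => exact fun w w' hw => congrArg₂ (· + ·) (h1 w w' hw) (h2 w w' hw)
  | mul _ _ h1 h2 => exact fun w w' hw => congrArg₂ (· * ·) (h1 w w' hw) (h2 w w' hw)

lemma PF.sum {M : ℕ} {ι : Type*} (s : Finset ι) {f : ι → (ℕ → K) → K}
    (h : ∀ i ∈ s, PF M (f i)) : PF M (fun w => ∑ i ∈ s, f i w) := by
  classical
  induction s using Finset.induction_on with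
  | empty => simpa using PF.zero
  | insert a s ha ih =>
    simp only [Finset.sum_insert ha]
    exact (h a (Finset.mem_insert_self a s)).add
      (ih fun i hi => h i (Finset.mem_insert_of_mem hi))

lemma rep_bin {M : ℕ} {f g : (ℕ → K) → K} (hf : PF M f) (hg : PF M g) (i : ℕ)
    (F : K → K → K) (h1 : ∀ i, Rep O (fun _ => True) (fun w => w i = f w))
    (h2 : ∀ i, Rep O (fun _ => True) (fun w => w i = g w))
    (h3 : ∀ i j k : ℕ, Rep O (fun _ => True) (fun w => F (w i) (w j) = w k)) :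
    Rep O (fun _ => True) (fun w => w i = F (f w) (g w)) := by
  set k := max M (i + 1) with hk
  have hkM : M ≤ k := le_max_left _ _
  have hki : i < k := lt_of_lt_of_le (Nat.lt_succ_self i) (le_max_right _ _)
  have h4 := Rep.ex k (fun _ _ _ => trivial) (Rep.ex (k + 1) (fun _ _ _ => trivial)
    ((h1 k).and ((h2 (k + 1)).and (h3 k (k + 1) i))))
  refine h4.congr fun w _ => ?_
  have e1 : ∀ x y : K, update (update w k x) (k + 1) y k = x := fun x y => by
    rw [update_of_ne (by omega), update_self]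
  have e2 : ∀ x y : K, update (update w k x) (k + 1) y (k + 1) = y := fun x y => update_self _ _ _
  have e3 : ∀ x y : K, ∀ j < k, update (update w k x) (k + 1) y j = w j := fun x y j hj => by
    rw [update_of_ne (by omega), update_of_ne (by omega)]
  have e4 : ∀ x y : K, f (update (update w k x) (k + 1) y) = f w := fun x y =>
    hf.indep _ _ fun j hj => e3 x y j (by omega)
  have e5 : ∀ x y : K, g (update (update w k x) (k + 1) y) = g w := fun x y =>
    hg.indep _ _ fun j hj => e3 x y j (by omega)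
  constructor
  · intro h
    refine ⟨f w, g w, ?_, ?_, ?_⟩
    · rw [e1, e4]
    · rw [e2, e5]
    · rw [e1, e2, e3 _ _ i hki, h]
  · rintro ⟨x, y, h5, h6, h7⟩
    rw [e1, e4] at h5
    rw [e2, e5] at h6
    rw [e1, e2, e3 _ _ i hki] at h7
    rw [← h7, h5, h6]

lemma PF.rep {M : ℕ} {f : (ℕ → K) → K} (h : PF M f) :
    ∀ i, Rep O (fun _ => True) (fun w => w i = f w) := by
  induction h with
  | var j _ => exact fun i => Rep.eq i j
  | zero => exact fun i => ⟨.add i i i, fun w _ => by simp [Sat]⟩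
  | one => exact fun i => ⟨.one i, fun w _ => Iff.rfl⟩
  | add hf hg h1 h2 =>
    exact fun i => rep_bin hf hg i (· + ·) h1 h2 fun a b c => ⟨.add a b c, fun _ _ => Iff.rfl⟩
  | mul hf hg h1 h2 =>
    exact fun i => rep_bin hf hg i (· * ·) h1 h2 fun a b c => ⟨.mul a b c, fun _ _ => Iff.rfl⟩

/-- membership in a coset `a + b O` -/
lemma rep_coset (i a b : ℕ) : Rep O G (fun w => ∃ z ∈ O, w i = w a + w b * z) := by
  apply Rep.weaken
  set k := i + a + b + 1 with hk
  have h1 : PF (K := K) (k + 1) (fun w => w a + w b * w k) :=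
    (PF.var a (by omega)).add ((PF.var b (by omega)).mul (PF.var k (by omega)))
  have h2 : Rep O (fun _ => True) (fun w => w k ∈ O) := ⟨.val k, fun _ _ => Iff.rfl⟩
  refine (Rep.ex k (fun _ _ _ => trivial) (h2.and (h1.rep i))).congr fun w _ => ?_
  refine exists_congr fun z => ?_
  rw [update_self, update_of_ne (by omega : i ≠ k), update_of_ne (by omega : a ≠ k),
    update_of_ne (by omega : b ≠ k)]

end

end Pool.Agent.U853.SR
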