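import Pool.Agent.U853.SR.Basic

set_option autoImplicit false

namespace Pool.Agent.U853.SR

open Finset

variable {p : ℕ} [Fact p.Prime]

/-- the variable -/
noncomputable def tt (p : ℕ) [Fact p.Prime] : LaurentSeries (ZMod p) := HahnSeries.single (1 : ℤ) (1 : ZMod p)

lemma tt_ne_zero : tt p ≠ 0 := HahnSeries.single_ne_zero one_ne_zero

lemma tt_pow (n : ℕ) : tt p ^ n = HahnSeries.single (n : ℤ) (1 : ZMod p) := by
  unfold tt
  rw [HahnSeries.single_pow, one_pow]
  simp

lemma tt_mem (n : ℕ) : tt p ^ n ∈ D p n := by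
  rw [tt_pow]
  intro k hk
  exact HahnSeries.coeff_single_of_ne (by omega)

lemma natCast_mem (m : ℕ) : (m : LaurentSeries (ZMod p)) ∈ D p 0 := by
  intro k hk
  have h1 : (m : LaurentSeries (ZMod p)) = HahnSeries.single (0 : ℤ) (m : ZMod p) := by
    have h2 : (m : LaurentSeries (ZMod p)) = HahnSeries.C (m : ZMod p) := by simp
    rw [h2]; rfl
  rw [h1]
  exact HahnSeries.coeff_single_of_ne (by omega)

lemma natCast_eq (m : ℕ) : (m : LaurentSeries (ZMod p)) = HahnSeries.single (0 : ℤ) (m : ZMod p) := by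
  have h2 : (m : LaurentSeries (ZMod p)) = HahnSeries.C (m : ZMod p) := by simp
  rw [h2]; rfl

lemma coeff_cst_mul (m : ℕ) (n : ℕ) (k : ℤ) :
    ((m : LaurentSeries (ZMod p)) * tt p ^ n).coeff k = if k = n then (m : ZMod p) else 0 := by
  rw [natCast_eq, tt_pow, HahnSeries.single_mul_single, zero_add, mul_one]
  split_ifs with h
  · rw [h]; exact HahnSeries.coeff_single_same _ _
  · exact HahnSeries.coeff_single_of_ne h

/-- the polynomial part below `d` -/
noncomputable def low (d : ℕ) (y : LaurentSeries (ZMod p)) : LaurentSeries (ZMod p) :=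
  ∑ i ∈ range d, (((y.coeff (i : ℤ)).val : ℕ) : LaurentSeries (ZMod p)) * tt p ^ i

lemma sub_low (d : ℕ) {y : LaurentSeries (ZMod p)} (hy : y ∈ D p 0) : y - low d y ∈ D p d := by
  intro k hk
  rw [HahnSeries.coeff_sub, low, HahnSeries.coeff_sum]
  simp only [coeff_cst_mul]
  rcases lt_or_ge k 0 with h | h
  · rw [hy k h, zero_sub, neg_eq_zero]
    exact Finset.sum_eq_zero fun i _ => if_neg (by omega)
  · obtain ⟨m, rfl⟩ := Int.eq_ofNat_of_zero_le h
    rw [Finset.sum_eq_single_of_mem m (by rw [Finset.mem_range]; omega)]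
    · rw [if_pos rfl]
      simp
    · intro i _ hne
      exact if_neg (by omega)

lemma inv_mem {x : LaurentSeries (ZMod p)} (hx : x ≠ 0) : x⁻¹ ∈ D p (-x.order) := by
  rw [mem_D_iff (inv_ne_zero hx)]
  have h1 : (x * x⁻¹).order = x.order + x⁻¹.order := HahnSeries.order_mul hx (inv_ne_zero hx)
  rw [mul_inv_cancel₀ hx, HahnSeries.order_one] at h1
  omega

/-- the sequence of remainders -/
noncomputable def rem (x : LaurentSeries (ZMod p)) (d : ℕ) (y : LaurentSeries (ZMod p)) :
    ℕ → LaurentSeries (ZMod p)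
  | 0 => y
  | n + 1 => (rem x d y n - low d (rem x d y n)) * x⁻¹

lemma rem_mem {x : LaurentSeries (ZMod p)} (hx : x ≠ 0) {d : ℕ} (hd : x.order = d)
    {y : LaurentSeries (ZMod p)} (hy : y ∈ D p 0) (n : ℕ) : rem x d y n ∈ D p 0 := by
  induction n with
  | zero => exact hy
  | succ n ih =>
    have h1 := D_mul (sub_low d ih) (inv_mem hx)
    rw [hd, add_neg_cancel] at h1
    exact h1

lemma rem_sum {x : LaurentSeries (ZMod p)} (hx : x ≠ 0) (d : ℕ)
    (y : LaurentSeries (ZMod p)) (N : ℕ) :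
    y = ∑ n ∈ range N, x ^ n * low d (rem x d y n) + x ^ N * rem x d y N := by
  induction N with
  | zero => simp [rem]
  | succ N ih =>
    rw [Finset.sum_range_succ]
    conv_lhs => rw [ih]
    have h1 : x * rem x d y (N + 1) = rem x d y N - low d (rem x d y N) := by
      show x * ((rem x d y N - low d (rem x d y N)) * x⁻¹) = _
      field_simp
    have h2 : x ^ (N + 1) * rem x d y (N + 1) = x ^ N * (x * rem x d y (N + 1)) := by ring
    rw [h2, h1]
    ring

lemma pow_mem_D {x : LaurentSeries (ZMod p)} (hx : x ∈ D p 1) (n : ℕ) : x ^ n ∈ D p n := by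
  induction n with
  | zero => simpa using natCast_mem (p := p) 1
  | succ n ih =>
    rw [pow_succ]
    have := D_mul ih hx
    push_cast
    exact this

/-- if `a i` is the sum of the `i`-th coefficients of the remainders times `x ^ n`, then `y` is the sum
of the `a i * t ^ i` -/
theorem span_core {x : LaurentSeries (ZMod p)} (hx : x ≠ 0) {d : ℕ} (hd : x.order = d) (hd1 : 1 ≤ d)
    {y : LaurentSeries (ZMod p)} (hy : y ∈ D p 0) (a : ℕ → LaurentSeries (ZMod p))
    (hlim : ∀ i N : ℕ, a i - ∑ n ∈ range N,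
      ((((rem x d y n).coeff (i : ℤ)).val : ℕ) : LaurentSeries (ZMod p)) * x ^ n ∈ D p N) :
    y = ∑ i ∈ range d, a i * tt p ^ i := by
  have hx1 : x ∈ D p 1 := D_mono (by omega) (mem_D_order x)
  have h0 : y - ∑ i ∈ range d, a i * tt p ^ i = 0 := by
    apply eq_zero_of_D
    intro M
    set N := M.toNat with hN
    refine D_mono (show M ≤ (N : ℤ) by omega) ?_
    have h1 := rem_sum hx d y N
    have h2 : ∑ n ∈ range N, x ^ n * low d (rem x d y n) =
        ∑ i ∈ range d, (∑ n ∈ range N,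
          ((((rem x d y n).coeff (i : ℤ)).val : ℕ) : LaurentSeries (ZMod p)) * x ^ n) * tt p ^ i := by
      simp only [low, Finset.mul_sum, Finset.sum_mul]
      rw [Finset.sum_comm]
      refine Finset.sum_congr rfl fun i _ => Finset.sum_congr rfl fun n _ => ?_
      ring
    have h3 : y - ∑ i ∈ range d, a i * tt p ^ i =
        x ^ N * rem x d y N - ∑ i ∈ range d, (a i - ∑ n ∈ range N,
          ((((rem x d y n).coeff (i : ℤ)).val : ℕ) : LaurentSeries (ZMod p)) * x ^ n) * tt p ^ i := by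
      conv_lhs => rw [h1, h2]
      simp only [sub_mul, Finset.sum_sub_distrib]
      ring
    rw [h3]
    refine D_sub ?_ ?_
    · have := D_mul (pow_mem_D hx1 N) (rem_mem hx hd hy N)
      rwa [add_zero] at this
    · refine Finset.sum_induction _ (fun z => z ∈ D p (N : ℤ)) (fun _ _ => D_add) (D_zero _) ?_
      intro i _
      have := D_mul (hlim i N) (tt_mem (p := p) i)
      exact D_mono (by omega) this
  exact sub_eq_zero.1 h0

/-- the `t ^ i`, `i < d`, generate `O` over a closed subring which contains an element `x` of order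
`d ≥ 1` -/
theorem span_O (C : Subring (LaurentSeries (ZMod p)))
    (hC : Cl (C : Set (LaurentSeries (ZMod p))) ⊆ (C : Set (LaurentSeries (ZMod p))))
    {x : LaurentSeries (ZMod p)} (hxC : x ∈ C) (hx : x ≠ 0) {d : ℕ} (hd : x.order = d) (hd1 : 1 ≤ d)
    {y : LaurentSeries (ZMod p)} (hy : y ∈ D p 0) :
    ∃ a : ℕ → LaurentSeries (ZMod p), (∀ i, a i ∈ C ∧ a i ∈ D p 0) ∧
      y = ∑ i ∈ range d, a i * tt p ^ i := by
  classical
  have hx1 : x ∈ D p 1 := D_mono (by omega) (mem_D_order x)
  have hn : ∀ m : ℕ, (m : LaurentSeries (ZMod p)) ∈ C := fun m => _root_.natCast_mem C m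
  let c : ℕ → ℕ → LaurentSeries (ZMod p) := fun i n =>
    ((((rem x d y n).coeff (i : ℤ)).val : ℕ) : LaurentSeries (ZMod p)) * x ^ n
  have hc : ∀ i n : ℕ, c i n ∈ D p (n : ℤ) := by
    intro i n
    have := D_mul (natCast_mem (p := p) (((rem x d y n).coeff (i : ℤ)).val)) (pow_mem_D hx1 n)
    rwa [zero_add] at this
  have hex : ∀ i, ∃ a ∈ (C : Set (LaurentSeries (ZMod p))), ∀ N : ℕ,
      a - ∑ n ∈ range N, c i n ∈ D p N := by
    intro i
    refine exists_lim (C : Set (LaurentSeries (ZMod p))) hC (c i) (hc i) fun N => ?_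
    exact C.sum_mem fun n _ => C.mul_mem (hn _) (C.pow_mem hxC n)
  choose a ha hlim using hex
  refine ⟨a, fun i => ⟨ha i, ?_⟩, span_core hx hd hd1 hy a hlim⟩
  have := hlim i 0
  simpa using this

end Pool.Agent.U853.SR
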