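import Pool.Agent.U853.SR.Span

set_option autoImplicit false

namespace Pool.Agent.U853.SR

open Finset

variable {p : ℕ} [Fact p.Prime]

lemma ofPS_coeff (f : PowerSeries (ZMod p)) (m : ℕ) :
    (HahnSeries.ofPowerSeries ℤ (ZMod p) f).coeff (m : ℤ) = PowerSeries.coeff m f :=
  HahnSeries.ofPowerSeries_apply_coeff _ _

lemma ofPS_mem (f : PowerSeries (ZMod p)) : HahnSeries.ofPowerSeries ℤ (ZMod p) f ∈ D p 0 := by
  intro k hk
  exact HahnSeries.embDomain_of_notMem_range (by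
    rintro ⟨m, hm⟩
    have : ((m : ℤ)) = k := hm
    omega)

lemma ofPS_mk {x : LaurentSeries (ZMod p)} (hx : x ∈ D p 0) :
    HahnSeries.ofPowerSeries ℤ (ZMod p) (PowerSeries.mk fun n => x.coeff (n : ℤ)) = x := by
  ext k
  rcases lt_or_ge k 0 with h | h
  · rw [ofPS_mem _ k h, hx k h]
  · obtain ⟨m, rfl⟩ := Int.eq_ofNat_of_zero_le h
    rw [ofPS_coeff, PowerSeries.coeff_mk]

lemma mk_split (f : ℕ → ZMod p) (N : ℕ) :
    (PowerSeries.mk f : PowerSeries (ZMod p)) =
      ∑ n ∈ range N, (((f n).val : ℕ) : PowerSeries (ZMod p)) * PowerSeries.X ^ n +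
        PowerSeries.X ^ N * PowerSeries.mk fun n => f (n + N) := by
  ext m
  rw [PowerSeries.coeff_mk, map_add, map_sum, PowerSeries.coeff_X_pow_mul']
  have h1 : ∀ n, PowerSeries.coeff m ((((f n).val : ℕ) : PowerSeries (ZMod p)) * PowerSeries.X ^ n) =
      if m = n then f n else 0 := by
    intro n
    have h2 : ((((f n).val : ℕ) : PowerSeries (ZMod p))) = PowerSeries.C (f n) := by
      have h3 : (((f n).val : ℕ) : ZMod p) = f n := ZMod.natCast_zmod_val _
      have h4 : ((((f n).val : ℕ) : PowerSeries (ZMod p))) =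
          PowerSeries.C ((((f n).val : ℕ) : ZMod p)) := (map_natCast PowerSeries.C _).symm
      rw [h4, h3]
    rw [h2, PowerSeries.coeff_C_mul, PowerSeries.coeff_X_pow]
    split_ifs <;> simp
  simp only [h1]
  by_cases h : N ≤ m
  · rw [if_pos h, PowerSeries.coeff_mk, Nat.sub_add_cancel h,
      Finset.sum_eq_zero (fun n hn => if_neg (by rw [Finset.mem_range] at hn; omega)), zero_add]
  · rw [if_neg h, add_zero, Finset.sum_eq_single_of_mem m (by rw [Finset.mem_range]; omega)]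
    · rw [if_pos rfl]
    · intro n _ hne
      exact if_neg (Ne.symm hne)

/-- substitution of `s` for `t` -/
theorem exists_tau {s : LaurentSeries (ZMod p)} (hs0 : s ≠ 0) (hs : s ∈ D p 1) :
    ∃ τ : LaurentSeries (ZMod p) →+* LaurentSeries (ZMod p), τ (tt p) = s ∧
      (∀ x ∈ D p 0, τ x ∈ D p 0) ∧
      ∀ (f : ℕ → ZMod p) (N : ℕ), τ (HahnSeries.ofPowerSeries ℤ (ZMod p) (PowerSeries.mk f)) -
        ∑ n ∈ range N, (((f n).val : ℕ) : LaurentSeries (ZMod p)) * s ^ n ∈ D p N := by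
  classical
  set a : PowerSeries (ZMod p) := PowerSeries.mk fun n => s.coeff (n : ℤ) with ha
  have hs' : HahnSeries.ofPowerSeries ℤ (ZMod p) a = s := ofPS_mk (D_mono (by norm_num) hs)
  have hsub : PowerSeries.HasSubst a := by
    refine PowerSeries.HasSubst.of_constantCoeff_zero' ?_
    rw [← PowerSeries.coeff_zero_eq_constantCoeff_apply, ha, PowerSeries.coeff_mk]
    exact hs _ (by norm_num)
  let σ : PowerSeries (ZMod p) →ₐ[ZMod p] PowerSeries (ZMod p) := PowerSeries.substAlgHom hsub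
  have hσX : σ PowerSeries.X = a := PowerSeries.substAlgHom_X hsub
  let g : PowerSeries (ZMod p) →+* LaurentSeries (ZMod p) :=
    (HahnSeries.ofPowerSeries ℤ (ZMod p)).comp σ.toRingHom
  have hgX : g PowerSeries.X = s := by
    show HahnSeries.ofPowerSeries ℤ (ZMod p) (σ PowerSeries.X) = s
    rw [hσX, hs']
  have hg : ∀ y : Submonoid.powers (PowerSeries.X : PowerSeries (ZMod p)), IsUnit (g y) := by
    rintro ⟨_, n, rfl⟩
    show IsUnit (g (PowerSeries.X ^ n))
    rw [map_pow, hgX]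
    exact (isUnit_iff_ne_zero.2 hs0).pow n
  let τ : LaurentSeries (ZMod p) →+* LaurentSeries (ZMod p) := IsLocalization.lift hg
  have hτ : ∀ f : PowerSeries (ZMod p), τ (HahnSeries.ofPowerSeries ℤ (ZMod p) f) = g f := by
    intro f
    have h1 := IsLocalization.lift_eq (S := LaurentSeries (ZMod p)) hg f
    rwa [LaurentSeries.coe_algebraMap] at h1
  have hX : HahnSeries.ofPowerSeries ℤ (ZMod p) PowerSeries.X = tt p := by
    rw [HahnSeries.ofPowerSeries_X]
    rfl
  refine ⟨τ, ?_, ?_, ?_⟩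
  · rw [← hX, hτ, hgX]
  · intro x hx
    rw [← ofPS_mk hx, hτ]
    exact ofPS_mem _
  · intro f N
    have h1 : τ (HahnSeries.ofPowerSeries ℤ (ZMod p) (PowerSeries.mk f)) -
        ∑ n ∈ range N, (((f n).val : ℕ) : LaurentSeries (ZMod p)) * s ^ n =
        s ^ N * g (PowerSeries.mk fun n => f (n + N)) := by
      rw [hτ]
      conv_lhs => rw [mk_split f N]
      rw [map_add, map_sum, map_mul, map_pow, hgX]
      simp only [map_mul, map_natCast, map_pow, hgX]
      ring
    rw [h1]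
    have h2 := D_mul (pow_mem_D hs N) (ofPS_mem (p := p) (σ (PowerSeries.mk fun n => f (n + N))))
    rw [add_zero] at h2
    exact h2

/-- the decomposition of the field -/
theorem decomp {s : LaurentSeries (ZMod p)} (hs0 : s ≠ 0) {e : ℕ} (he : s.order = e) (he1 : 1 ≤ e)
    (τ : LaurentSeries (ZMod p) →+* LaurentSeries (ZMod p)) (h1 : τ (tt p) = s)
    (h3 : ∀ (f : ℕ → ZMod p) (N : ℕ), τ (HahnSeries.ofPowerSeries ℤ (ZMod p) (PowerSeries.mk f)) -
        ∑ n ∈ range N, (((f n).val : ℕ) : LaurentSeries (ZMod p)) * s ^ n ∈ D p N)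
    (y : LaurentSeries (ZMod p)) : ∃ a : ℕ → LaurentSeries (ZMod p),
      y = ∑ i ∈ range e, τ (a i) * tt p ^ i := by
  have hs1 : s ∈ D p 1 := D_mono (by omega) (mem_D_order s)
  obtain ⟨m, hm⟩ := exists_low y
  have h4 : s ^ m * y ∈ D p 0 := by
    have := D_mul (pow_mem_D hs1 m) hm
    rwa [add_neg_cancel] at this
  have h5 := span_core hs0 he he1 h4 (fun i => τ (HahnSeries.ofPowerSeries ℤ (ZMod p)
    (PowerSeries.mk fun n => (rem s e (s ^ m * y) n).coeff (i : ℤ)))) (fun i N => h3 _ N)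
  refine ⟨fun i => (tt p ^ m)⁻¹ * HahnSeries.ofPowerSeries ℤ (ZMod p)
    (PowerSeries.mk fun n => (rem s e (s ^ m * y) n).coeff (i : ℤ)), ?_⟩
  have h6 : y = (s ^ m)⁻¹ * (s ^ m * y) := by
    rw [← mul_assoc, inv_mul_cancel₀ (pow_ne_zero m hs0), one_mul]
  conv_lhs => rw [h6, h5]
  rw [Finset.mul_sum]
  refine Finset.sum_congr rfl fun i _ => ?_
  rw [map_mul, map_inv₀, map_pow, h1]
  ring

lemma order_tau {s : LaurentSeries (ZMod p)} (hs0 : s ≠ 0) {e : ℕ} (he : s.order = e)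
    (τ : LaurentSeries (ZMod p) →+* LaurentSeries (ZMod p)) (h1 : τ (tt p) = s)
    (h2 : ∀ x ∈ D p 0, τ x ∈ D p 0) {x : LaurentSeries (ZMod p)} (hx : x ≠ 0) :
    (τ x).order = e * x.order := by
  obtain ⟨m, hm⟩ := exists_low x
  have hm' := (mem_D_iff hx).1 hm
  obtain ⟨k, hk⟩ : ∃ k : ℕ, x.order + m = k := Int.eq_ofNat_of_zero_le (by omega)
  have ht0 := tt_ne_zero (p := p)
  have hto : ∀ n : ℕ, (tt p ^ n).order = n := by
    intro n
    rw [tt_pow]
    exact HahnSeries.order_single one_ne_zero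
  set u := (tt p ^ k)⁻¹ * (tt p ^ m * x) with hu
  have hu0 : u ≠ 0 := mul_ne_zero (inv_ne_zero (pow_ne_zero k ht0)) (mul_ne_zero (pow_ne_zero m ht0) hx)
  have hmul : tt p ^ k * u = tt p ^ m * x := by
    rw [hu, ← mul_assoc, mul_inv_cancel₀ (pow_ne_zero k ht0), one_mul]
  have huo : u.order = 0 := by
    have h3 := congrArg HahnSeries.order hmul
    rw [HahnSeries.order_mul (pow_ne_zero k ht0) hu0, HahnSeries.order_mul (pow_ne_zero m ht0) hx,
      hto, hto] at h3
    omega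
  have hτu0 : τ u ≠ 0 := (map_ne_zero τ).2 hu0
  have hτu : (τ u).order = 0 := by
    have h3 := h2 u ((mem_D_iff hu0).2 huo.ge)
    have h4 : τ (u⁻¹) ∈ D p 0 := h2 _ (by
      have := inv_mem hu0
      rwa [huo, neg_zero] at this)
    rw [map_inv₀] at h4
    have h5 := (mem_D_iff hτu0).1 h3
    have h6 := (mem_D_iff (inv_ne_zero hτu0)).1 h4
    have h7 : (τ u * (τ u)⁻¹).order = (τ u).order + (τ u)⁻¹.order :=
      HahnSeries.order_mul hτu0 (inv_ne_zero hτu0)
    rw [mul_inv_cancel₀ hτu0, HahnSeries.order_one] at h7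
    omega
  have hso : ∀ n : ℕ, (s ^ n).order = n * e := by
    intro n
    rw [HahnSeries.order_pow, he, nsmul_eq_mul]
  have h3 := congrArg (fun z => (τ z).order) hmul
  simp only [map_mul, map_pow, h1] at h3
  rw [HahnSeries.order_mul (pow_ne_zero k hs0) hτu0,
    HahnSeries.order_mul (pow_ne_zero m hs0) ((map_ne_zero τ).2 hx), hso, hso, hτu] at h3
  have h4 : (k : ℤ) = x.order + m := hk.symm
  rw [h4] at h3
  linarith

end Pool.Agent.U853.SR
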