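import Pool.Agent.U853.SR.Rep

set_option autoImplicit false

namespace Pool.Agent.U853.SR

open Pool.Agent.Y924.EL Pool.Agent.R794.FP Function Finset

section

variable {K : Type*} [Field K]

lemma enc_inj {e n n' r r' : ℕ} (hr : r < 3 * e) (hr' : r' < 3 * e)
    (h : 3 * e * n + r = 3 * e * n' + r') : n = n' ∧ r = r' := by
  have h1 : (3 * e * n + r) / (3 * e) = n := by
    rw [Nat.mul_add_div (by omega), Nat.div_eq_of_lt hr, add_zero]
  have h2 : (3 * e * n' + r') / (3 * e) = n' := by
    rw [Nat.mul_add_div (by omega), Nat.div_eq_of_lt hr', add_zero]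
  have h3 : n = n' := by rw [← h1, ← h2, h]
  subst h3
  exact ⟨rfl, by omega⟩

lemma enc_mod {e n r : ℕ} (hr : r < 3 * e) : (3 * e * n + r) % (3 * e) = r := by
  rw [Nat.mul_add_mod, Nat.mod_eq_of_lt hr]

lemma enc_div {e n r : ℕ} (hr : r < 3 * e) : (3 * e * n + r) / (3 * e) = n := by
  rw [Nat.mul_add_div (by omega), Nat.div_eq_of_lt hr, add_zero]

/-- the assignment with the coordinates `w` -/
def dec (e : ℕ) (τ : K →+* K) (t : K) (w : ℕ → K) (n : ℕ) : K :=
  ∑ l ∈ range e, τ (w (3 * e * n + l)) * t ^ l

/-- the constants have the right values -/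
def Gd (e : ℕ) (g : ℕ → K) (w : ℕ → K) : Prop := ∀ i, e ≤ i % (3 * e) → w i = g i

/-- the numbers of the coordinates of the `n`-th variable -/
def blk (e n : ℕ) : List ℕ := (List.range e).map fun l => 3 * e * n + l

lemma mem_blk {e n i : ℕ} : i ∈ blk e n ↔ ∃ l < e, 3 * e * n + l = i := by
  simp [blk]

omit [Field K] in
lemma gd_ovr {e : ℕ} (g : ℕ → K) (w f : ℕ → K) (n : ℕ) (h : Gd e g w) :
    Gd e g (ovr w f (blk e n)) := by
  intro i hi
  rw [← h i hi]
  unfold ovr
  rw [if_neg]
  rw [mem_blk]
  rintro ⟨l, hl, rfl⟩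
  rw [enc_mod (by omega)] at hi
  omega

lemma dec_ovr {e : ℕ} (τ : K →+* K) (t : K) (w f : ℕ → K) (n : ℕ) :
    dec e τ t (ovr w f (blk e n)) =
      update (dec e τ t w) n (∑ l ∈ range e, τ (f (3 * e * n + l)) * t ^ l) := by
  funext m
  rcases eq_or_ne m n with rfl | hmn
  · rw [update_self]
    refine Finset.sum_congr rfl fun l hl => ?_
    rw [Finset.mem_range] at hl
    unfold ovr
    rw [if_pos (mem_blk.2 ⟨l, hl, rfl⟩)]
  · rw [update_of_ne hmn]
    refine Finset.sum_congr rfl fun l hl => ?_
    rw [Finset.mem_range] at hl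
    unfold ovr
    rw [if_neg]
    rw [mem_blk]
    rintro ⟨l', hl', h⟩
    exact hmn (enc_inj (by omega) (by omega) h).1.symm

variable {O : Set K} {e : ℕ} {τ : K →+* K} {t : K}

lemma uniq (hu : ∀ a : ℕ → K, ∑ i ∈ range e, τ (a i) * t ^ i = 0 → ∀ i < e, a i = 0)
    (a b : ℕ → K) : ∑ i ∈ range e, τ (a i) * t ^ i = ∑ i ∈ range e, τ (b i) * t ^ i ↔
      ∀ i ∈ range e, a i = b i := by
  constructor
  · intro h i hi
    have h1 := hu (fun i => a i - b i) (by
      simp only [map_sub, sub_mul, Finset.sum_sub_distrib]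
      rw [h, sub_self]) i (Finset.mem_range.1 hi)
    exact sub_eq_zero.1 h1
  · intro h
    exact Finset.sum_congr rfl fun i hi => by rw [h i hi]

theorem tr (he : 1 ≤ e) (hd : ∀ y, ∃ a : ℕ → K, y = ∑ i ∈ range e, τ (a i) * t ^ i)
    (hu : ∀ a : ℕ → K, ∑ i ∈ range e, τ (a i) * t ^ i = 0 → ∀ i < e, a i = 0)
    (g : ℕ → K) (hg : ∀ k, t ^ k = ∑ l ∈ range e, τ (g (3 * e * k + (e + l))) * t ^ l)
    (C C' : Set K) (hC : ∀ y, y ∈ C ↔ ∃ x ∈ C', τ x = y)
    (hC' : ∀ i, Rep O (Gd e g) (fun w => w i ∈ C')) (φ : Fm) :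
    Rep O (Gd e g) (fun w => Sat C φ (dec e τ t w)) := by
  have hone : (1 : K) = ∑ l ∈ range e, τ (if l = 0 then 1 else 0) * t ^ l := by
    rw [Finset.sum_eq_single_of_mem 0 (Finset.mem_range.2 (by omega))]
    · simp
    · intro l _ hl
      simp [hl]
  induction φ with
  | eq i j =>
    refine (Rep.all (range e) (R := fun l w => w (3 * e * i + l) = w (3 * e * j + l))
      fun l _ => Rep.eq _ _).congr fun w _ => ?_
    exact uniq hu _ _
  | one i =>
    refine (Rep.all (range e) (R := fun l w => w (3 * e * i + l) = if l = 0 then 1 else 0)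
      fun l _ => ?_).congr fun w _ => ?_
    · by_cases hl : l = 0
      · simp only [hl, if_true]
        exact ((PF.one (K := K) (M := 0)).rep _).weaken
      · simp only [hl, if_false]
        exact ((PF.zero (K := K) (M := 0)).rep _).weaken
    · refine Iff.trans (b := dec e τ t w i =
        ∑ l ∈ range e, τ (if l = 0 then 1 else 0) * t ^ l) ?_ (uniq hu _ _)
      rw [← hone]
      exact Iff.rfl
  | add i j k =>
    refine (Rep.all (range e) (R := fun l w => w (3 * e * k + l) =
      w (3 * e * i + l) + w (3 * e * j + l)) fun l _ => ?_).congr fun w _ => ?_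
    · exact (((PF.var (K := K) (M := 3 * e * i + l + (3 * e * j + l) + 1) (3 * e * i + l)
        (by omega)).add (PF.var (3 * e * j + l) (by omega))).rep _).weaken
    · show dec e τ t w i + dec e τ t w j = dec e τ t w k ↔ _
      rw [eq_comm]
      have h1 : dec e τ t w i + dec e τ t w j =
          ∑ l ∈ range e, τ (w (3 * e * i + l) + w (3 * e * j + l)) * t ^ l := by
        simp only [map_add, add_mul, Finset.sum_add_distrib]
        rfl
      rw [h1]
      exact uniq hu _ _
  | mul i j k =>
    refine (Rep.all (range e) (R := fun l w => w (3 * e * k + l) =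
      ∑ a ∈ range e, ∑ b ∈ range e, w (3 * e * i + a) * w (3 * e * j + b) *
        w (3 * e * (a + b) + (e + l))) fun l hl => ?_).congr fun w hw => ?_
    · refine PF.rep (M := 3 * e * i + e + (3 * e * j + e) + (3 * e * (2 * e) + 2 * e)) ?_ _
        |>.weaken
      refine PF.sum _ fun a ha => PF.sum _ fun b hb => ?_
      rw [Finset.mem_range] at ha hb hl
      have h2 : 3 * e * (a + b) ≤ 3 * e * (2 * e) := Nat.mul_le_mul_left _ (by omega)
      exact ((PF.var _ (by omega)).mul (PF.var _ (by omega))).mul (PF.var _ (by omega))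
    · show dec e τ t w i * dec e τ t w j = dec e τ t w k ↔ _
      rw [eq_comm]
      have h1 : dec e τ t w i * dec e τ t w j =
          ∑ l ∈ range e, τ (∑ a ∈ range e, ∑ b ∈ range e, w (3 * e * i + a) *
            w (3 * e * j + b) * w (3 * e * (a + b) + (e + l))) * t ^ l := by
        unfold dec
        rw [Finset.sum_mul_sum]
        have h2 : ∀ a b, τ (w (3 * e * i + a)) * t ^ a * (τ (w (3 * e * j + b)) * t ^ b) =
            ∑ l ∈ range e, τ (w (3 * e * i + a) * w (3 * e * j + b) *
              w (3 * e * (a + b) + (e + l))) * t ^ l := by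
          intro a b
          have h3 : τ (w (3 * e * i + a)) * t ^ a * (τ (w (3 * e * j + b)) * t ^ b) =
              τ (w (3 * e * i + a) * w (3 * e * j + b)) * t ^ (a + b) := by
            rw [map_mul, pow_add]
            ring
          rw [h3, hg (a + b), Finset.mul_sum]
          refine Finset.sum_congr rfl fun l hl => ?_
          rw [Finset.mem_range] at hl
          rw [hw (3 * e * (a + b) + (e + l)) (by rw [enc_mod (by omega)]; omega), map_mul τ
            (w (3 * e * i + a) * w (3 * e * j + b))]
          ring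
        simp only [h2, map_sum, Finset.sum_mul]
        symm
        rw [Finset.sum_comm]
        refine Finset.sum_congr rfl fun a _ => ?_
        rw [Finset.sum_comm]
      rw [h1]
      exact uniq hu _ _
  | val i =>
    refine ((Rep.all (range e) (R := fun l w => l = 0 ∨ w (3 * e * i + l) = 0)
      fun l _ => ?_).and (hC' (3 * e * i))).congr fun w _ => ?_
    · by_cases hl : l = 0
      · simp only [hl, true_or]
        exact Rep.true
      · simp only [hl, false_or]
        exact ((PF.zero (K := K) (M := 0)).rep _).weaken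
    · show dec e τ t w i ∈ C ↔ _
      rw [hC]
      have h1 : ∀ x, τ x = ∑ l ∈ range e, τ (if l = 0 then x else 0) * t ^ l := by
        intro x
        rw [Finset.sum_eq_single_of_mem 0 (Finset.mem_range.2 (by omega))]
        · simp
        · intro l _ hl
          simp [hl]
      constructor
      · rintro ⟨x, hx, hx'⟩
        rw [h1] at hx'
        have h2 := (uniq hu _ _).1 hx'
        have h3 : w (3 * e * i) = x := by
          have := h2 0 (Finset.mem_range.2 (by omega))
          simpa using this.symm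
        refine ⟨fun l hl => ?_, ?_⟩
        · rcases eq_or_ne l 0 with h0 | h0
          · exact Or.inl h0
          · right
            have := h2 l hl
            rw [if_neg h0] at this
            exact this.symm
        · rw [h3]
          exact hx
      · rintro ⟨h2, h3⟩
        refine ⟨_, h3, ?_⟩
        rw [h1]
        refine (uniq hu _ _).2 fun l hl => ?_
        rcases eq_or_ne l 0 with h0 | h0
        · rw [if_pos h0, h0, add_zero]
        · rw [if_neg h0, (h2 l hl).resolve_left h0]
  | neg φ ih => exact ih.not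
  | and φ ψ ih1 ih2 => exact ih1.and ih2
  | ex i φ ih =>
    refine (Rep.exs (blk e i) (fun w f hw => gd_ovr g w f i hw) ih).congr fun w _ => ?_
    show (∃ x, Sat C φ (update (dec e τ t w) i x)) ↔ _
    simp only [dec_ovr]
    constructor
    · rintro ⟨x, hx⟩
      obtain ⟨a, ha⟩ := hd x
      refine ⟨fun n => a (n - 3 * e * i), ?_⟩
      simp only [Nat.add_sub_cancel_left]
      rwa [← ha]
    · rintro ⟨f, hf⟩
      exact ⟨_, hf⟩

end

end Pool.Agent.U853.SR
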